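import Mathlib

/-!
# Functions of bounded degree on the subsets of a finite set, and their alternating sums
-/

namespace Pool.Agent.Q285.MZ

set_option linter.unusedSectionVars false

open Finset

variable {ι : Type*} [DecidableEq ι]

/-- `φ` restricted to the subsets of `Y` is a multilinear polynomial of degree at most `d`. -/
def DegOn (Y : Finset ι) (d : ℕ) (φ : Finset ι → ℚ) : Prop :=
  ∃ c : Finset ι → ℚ, (∀ I, d < I.card → c I = 0) ∧ ∀ X, X ⊆ Y → φ X = ∑ I ∈ X.powerset, c I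

lemma DegOn.congr {Y : Finset ι} {d : ℕ} {φ ψ : Finset ι → ℚ} (h : DegOn Y d φ)
    (he : ∀ X, X ⊆ Y → φ X = ψ X) : DegOn Y d ψ := by
  obtain ⟨c, h1, h2⟩ := h
  exact ⟨c, h1, fun X hX => by rw [← he X hX, h2 X hX]⟩

lemma DegOn.mono {Y : Finset ι} {d e : ℕ} {φ : Finset ι → ℚ} (h : DegOn Y d φ) (hde : d ≤ e) :
    DegOn Y e φ := by
  obtain ⟨c, h1, h2⟩ := h
  exact ⟨c, fun I hI => h1 I (by omega), h2⟩

lemma DegOn.add {Y : Finset ι} {d : ℕ} {φ ψ : Finset ι → ℚ} (h : DegOn Y d φ) (h' : DegOn Y d ψ) :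
    DegOn Y d (fun X => φ X + ψ X) := by
  obtain ⟨c, h1, h2⟩ := h
  obtain ⟨c', h1', h2'⟩ := h'
  refine ⟨fun I => c I + c' I, fun I hI => by simp [h1 I hI, h1' I hI], fun X hX => ?_⟩
  simp only [h2 X hX, h2' X hX, Finset.sum_add_distrib]

lemma DegOn.smul {Y : Finset ι} {d : ℕ} {φ : Finset ι → ℚ} (a : ℚ) (h : DegOn Y d φ) :
    DegOn Y d (fun X => a * φ X) := by
  obtain ⟨c, h1, h2⟩ := h
  refine ⟨fun I => a * c I, fun I hI => by simp [h1 I hI], fun X hX => ?_⟩
  simp only [h2 X hX, Finset.mul_sum]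

lemma DegOn.sub {Y : Finset ι} {d : ℕ} {φ ψ : Finset ι → ℚ} (h : DegOn Y d φ) (h' : DegOn Y d ψ) :
    DegOn Y d (fun X => φ X - ψ X) := by
  have := h.add (h'.smul (-1))
  exact this.congr fun X _ => by ring

lemma degOn_const (Y : Finset ι) (d : ℕ) (a : ℚ) : DegOn Y d (fun _ => a) := by
  refine ⟨fun I => if I = ∅ then a else 0, fun I hI => ?_, fun X _ => ?_⟩
  · have : I ≠ ∅ := by rintro rfl; simp at hI
    simp [this]
  · rw [Finset.sum_ite_eq' X.powerset ∅ (fun _ => a)]
    simp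

lemma degOn_zero (Y : Finset ι) (d : ℕ) : DegOn Y d (fun _ => 0) := degOn_const Y d 0

lemma DegOn.sum {κ : Type*} {Y : Finset ι} {d : ℕ} (s : Finset κ) {φ : κ → Finset ι → ℚ}
    (h : ∀ k ∈ s, DegOn Y d (φ k)) : DegOn Y d (fun X => ∑ k ∈ s, φ k X) := by
  classical
  induction s using Finset.induction_on with
  | empty => simpa using degOn_zero Y d
  | insert k s hk ih =>
    have h1 := h k (Finset.mem_insert_self _ _)
    have h2 := ih fun k' hk' => h k' (Finset.mem_insert_of_mem hk')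
    exact (h1.add h2).congr fun X _ => by rw [Finset.sum_insert hk]

lemma DegOn.mul {Y : Finset ι} {d e : ℕ} {φ ψ : Finset ι → ℚ} (h : DegOn Y d φ)
    (h' : DegOn Y e ψ) : DegOn Y (d + e) (fun X => φ X * ψ X) := by
  obtain ⟨c, h1, h2⟩ := h
  obtain ⟨c', h1', h2'⟩ := h'
  refine ⟨fun K => ∑ z ∈ (K.powerset ×ˢ K.powerset).filter (fun z => z.1 ∪ z.2 = K),
    c z.1 * c' z.2, fun K hK => ?_, fun X hX => ?_⟩
  · refine Finset.sum_eq_zero fun z hz => ?_
    simp only [Finset.mem_filter] at hz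
    have hle : K.card ≤ z.1.card + z.2.card := by
      rw [← hz.2]; exact Finset.card_union_le _ _
    rcases Nat.lt_or_ge d z.1.card with h | h
    · rw [h1 _ h, zero_mul]
    · rw [h1' z.2 (by omega), mul_zero]
  · simp only
    rw [h2 X hX, h2' X hX, Finset.sum_mul_sum, ← Finset.sum_product']
    rw [← Finset.sum_fiberwise_of_maps_to (s := X.powerset ×ˢ X.powerset) (t := X.powerset)
      (g := fun z => z.1 ∪ z.2)]
    · refine Finset.sum_congr rfl fun K hK => ?_
      refine Finset.sum_congr ?_ fun _ _ => rfl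
      ext z
      simp only [Finset.mem_filter, Finset.mem_product, Finset.mem_powerset] at hK ⊢
      constructor
      · rintro ⟨_, h⟩
        exact ⟨⟨h ▸ Finset.subset_union_left, h ▸ Finset.subset_union_right⟩, h⟩
      · rintro ⟨⟨h3, h4⟩, h⟩
        exact ⟨⟨h3.trans hK, h4.trans hK⟩, h⟩
    · intro z hz
      simp only [Finset.mem_product, Finset.mem_powerset] at hz ⊢
      exact Finset.union_subset hz.1 hz.2

/-- `X ↦ ∑_{I ⊆ X, |I| = m} c I` has degree at most `m` -/
lemma degOn_powersetCard (Y : Finset ι) (m : ℕ) (c : Finset ι → ℚ) :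
    DegOn Y m (fun X => ∑ I ∈ X.powersetCard m, c I) := by
  refine ⟨fun I => if I.card = m then c I else 0, fun I hI => ?_, fun X _ => ?_⟩
  · have : I.card ≠ m := by omega
    simp [this]
  · rw [← Finset.sum_filter]
    refine Finset.sum_congr ?_ fun _ _ => rfl
    ext I
    simp [Finset.mem_powersetCard]

lemma degOn_card (Y : Finset ι) : DegOn Y 1 (fun X => (X.card : ℚ)) := by
  refine (degOn_powersetCard Y 1 (fun _ => 1)).congr fun X _ => ?_
  simp

lemma DegOn.choose {Y : Finset ι} {d : ℕ} {φ : Finset ι → ℕ} (h : DegOn Y d (fun X => (φ X : ℚ)))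
    (k : ℕ) : DegOn Y (d * k) (fun X => ((φ X).choose k : ℚ)) := by
  induction k with
  | zero => simpa using degOn_const Y 0 1
  | succ k ih =>
    have h1 : DegOn Y d (fun X => (φ X : ℚ) - k) := h.sub (degOn_const Y d k)
    have h2 := (ih.mul h1).smul (1 / ((k : ℚ) + 1))
    have e : d * k + d = d * (k + 1) := by ring
    rw [e] at h2
    refine h2.congr fun X _ => ?_
    have h3 := Nat.choose_succ_right_eq (φ X) k
    have h4 : (((φ X).choose (k + 1) : ℕ) : ℚ) * (k + 1) = ((φ X).choose k : ℚ) * ((φ X : ℚ) - k) := by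
      rcases Nat.lt_or_ge (φ X) k with hlt | hge
      · rw [Nat.choose_eq_zero_of_lt hlt, Nat.choose_eq_zero_of_lt (by omega)]; simp
      · have : (((φ X).choose (k + 1) * (k + 1) : ℕ) : ℚ) = (((φ X).choose k * (φ X - k) : ℕ) : ℚ) := by
          rw [h3]
        push_cast [Nat.cast_sub hge] at this
        linarith
    field_simp
    linarith

/-- alternating sum over the subsets of `Y` -/
def alt {R : Type*} [CommRing R] (Y : Finset ι) (φ : Finset ι → R) : R :=
  ∑ X ∈ Y.powerset, (-1) ^ X.card * φ X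

lemma alt_basis (Y : Finset ι) (I : Finset ι) (hI : ∃ y ∈ Y, y ∉ I) :
    ∑ X ∈ Y.powerset, (-1 : ℚ) ^ X.card * (if I ⊆ X then 1 else 0) = 0 := by
  obtain ⟨y, hy, hyI⟩ := hI
  have hY : Y = insert y (Y.erase y) := (Finset.insert_erase hy).symm
  rw [hY, Finset.sum_powerset_insert (Finset.notMem_erase y Y), ← Finset.sum_add_distrib]
  refine Finset.sum_eq_zero fun X hX => ?_
  have hyX : y ∉ X := fun h => Finset.notMem_erase y Y (Finset.mem_powerset.1 hX h)
  rw [Finset.card_insert_of_notMem hyX, pow_succ]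
  have : I ⊆ insert y X ↔ I ⊆ X := by
    constructor
    · intro h z hz
      rcases Finset.mem_insert.1 (h hz) with h' | h'
      · exact absurd (h' ▸ hz) hyI
      · exact h'
    · exact fun h => h.trans (Finset.subset_insert _ _)
  simp only [this]
  ring

lemma alt_eq_zero {Y : Finset ι} {d : ℕ} {φ : Finset ι → ℚ} (h : DegOn Y d φ) (hd : d < Y.card) :
    alt Y φ = 0 := by
  obtain ⟨c, h1, h2⟩ := h
  unfold alt
  have : ∀ X ∈ Y.powerset, (-1 : ℚ) ^ X.card * φ X
      = ∑ I ∈ Y.powerset, c I * ((-1 : ℚ) ^ X.card * (if I ⊆ X then 1 else 0)) := by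
    intro X hX
    have hXY := Finset.mem_powerset.1 hX
    rw [h2 X hXY, Finset.mul_sum]
    rw [← Finset.sum_subset (Finset.powerset_mono.2 hXY)
      (f := fun I => c I * ((-1 : ℚ) ^ X.card * (if I ⊆ X then 1 else 0)))]
    · refine Finset.sum_congr rfl fun I hI => ?_
      rw [if_pos (Finset.mem_powerset.1 hI)]; ring
    · intro I _ hI
      rw [if_neg (fun h => hI (Finset.mem_powerset.2 h))]; ring
  rw [Finset.sum_congr rfl this, Finset.sum_comm]
  refine Finset.sum_eq_zero fun I hI => ?_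
  rw [← Finset.mul_sum]
  rcases Nat.lt_or_ge d I.card with h | h
  · rw [h1 I h, zero_mul]
  · rw [alt_basis, mul_zero]
    by_contra hcon
    push Not at hcon
    have := Finset.card_le_card (s := Y) (t := I) hcon
    omega

lemma alt_eq_zero_int {Y : Finset ι} {d : ℕ} {φ : Finset ι → ℤ}
    (h : DegOn Y d (fun X => (φ X : ℚ))) (hd : d < Y.card) : alt Y φ = 0 := by
  have h1 := alt_eq_zero h hd
  unfold alt at h1 ⊢
  have h2 : ((∑ X ∈ Y.powerset, (-1) ^ X.card * φ X : ℤ) : ℚ) = 0 := by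
    rw [← h1]; push_cast; rfl
  exact_mod_cast h2

lemma alt_card {R : Type*} [CommRing R] (Y : Finset ι) (f : ℕ → R) :
    alt Y (fun X => f X.card) = ∑ w ∈ Finset.range (Y.card + 1), (-1) ^ w * (Y.card.choose w * f w) := by
  unfold alt
  rw [Finset.sum_powerset_apply_card (fun w => (-1 : R) ^ w * f w)]
  refine Finset.sum_congr rfl fun w _ => ?_
  rw [nsmul_eq_mul]; ring

end Pool.Agent.Q285.MZ
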