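import Pool.Agent.Q5.MZ.Stm

/-!
# Project MZ, job LE: local norms at unramified primes
-/

set_option autoImplicit false
set_option linter.unusedSectionVars false

namespace Pool.Agent.Q285.MZ

open NumberField IsDedekindDomain Module
open Pool.Agent.Q92.AR (Dv prin Pr Ray RayD art nmD nu up puD Cong Pos frob IsFrobenius Unramified Ram)
open Pool.Agent.TeamU (act Over)
open Pool.Agent.Q5.MZ

section

variable {k E : Type} [Field k] [NumberField k] [Field E] [NumberField E] [Algebra k E]

/-- in degree two a prime with two primes above it splits completely -/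
theorem split_of [IsGalois k E] (h2 : finrank k E = 2) {v : HeightOneSpectrum (𝓞 k)}
    (hns : ¬ NonSplit E v) : Pool.Agent.Q20.EX.Split E v := by
  intro w hw g hg
  by_contra hne
  apply hns
  have hcard : Nat.card (E ≃ₐ[k] E) = 2 := by rw [IsGalois.card_aut_eq_finrank, h2]
  have huniq := (Nat.card_eq_two_iff' (1 : E ≃ₐ[k] E)).1 hcard
  have key : ∀ w' : HeightOneSpectrum (𝓞 E), w'.under (𝓞 k) = v → w' = w := by
    intro w' hw'
    have ho : Over w v := by
      rw [← hw]
      rfl
    have ho' : Over w' v := by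
      rw [← hw']
      rfl
    obtain ⟨h, hh⟩ := Pool.Agent.TeamU.exists_act ho ho'
    rcases eq_or_ne h 1 with h1 | h1
    · rw [← hh, h1, Pool.Agent.TeamU.act_one]
    · rw [← hh, huniq.unique h1 hne, hg]
  intro w₁ w₂ h₁ h₂
  rw [key w₁ h₁, key w₂ h₂]

theorem nu_up (h2 : finrank k E = 2) (a : kˣ) : nu k E (up k E a) = a ^ 2 := by
  apply Units.ext
  show Algebra.norm k (algebraMap k E (a : k)) = ((a ^ 2 : kˣ) : k)
  rw [Algebra.norm_algebraMap, h2, Units.val_pow_eq_pow_val]

/-- a natural number of large valuation at `v` -/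
theorem ex_nat (v : HeightOneSpectrum (𝓞 k)) (m : ℕ) : ∃ N : ℕ, N ≠ 0 ∧ (N : 𝓞 k) ∈ v.asIdeal ∧
    v.valuation k (N : k) ≤ WithZero.exp (-(m : ℤ)) := by
  set q := Ideal.absNorm v.asIdeal with hq
  have hq0 : q ≠ 0 := fun h => v.ne_bot (Ideal.absNorm_eq_zero_iff.1 h)
  have hqv : (q : 𝓞 k) ∈ v.asIdeal := Ideal.absNorm_mem v.asIdeal
  have h1 : v.valuation k (q : k) < 1 := Pool.Agent.Q38.EX.val_nat_lt_one hqv
  have h2 : v.valuation k (q : k) ≤ WithZero.exp (-(1 : ℤ)) := by
    have hq0' : (q : k) ≠ 0 := by exact_mod_cast hq0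
    have h3 := Pool.Agent.Q128.AR.val_prin (Units.mk0 (q : k) hq0') v
    rw [Units.val_mk0] at h3
    rw [h3] at h1 ⊢
    rw [← WithZero.exp_zero, WithZero.exp_lt_exp] at h1
    rw [WithZero.exp_le_exp]
    omega
  refine ⟨q ^ (m + 1), pow_ne_zero _ hq0, ?_, ?_⟩
  · rw [Nat.cast_pow]
    exact Ideal.pow_mem_of_mem _ hqv _ (Nat.succ_pos m)
  · rw [Nat.cast_pow, map_pow]
    refine (pow_le_pow_left' h2 (m + 1)).trans ?_
    rw [← WithZero.exp_nsmul, WithZero.exp_le_exp]
    push_cast
    simp only [nsmul_eq_mul]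
    push_cast
    linarith

end

/-- **LE** -/
theorem le : Pool.Agent.Q5.MZ.S_LE := by
  intro k E _ _ _ _ _ _ v x h2 hunr hev m
  classical
  obtain ⟨a, ha⟩ : ∃ a : kˣ, Pool.Agent.Q20.EX.Split E v ∨
      v.valuation k ((x / a ^ 2 : kˣ) : k) = 1 := by
    by_cases hns : NonSplit E v
    · obtain ⟨j, hj⟩ := hev hns
      obtain ⟨π, hπ⟩ := v.valuation_exists_uniformizer k
      have hπ0 : π ≠ 0 := by
        rintro rfl
        rw [map_zero] at hπ
        exact WithZero.coe_ne_zero hπ.symm
      refine ⟨(Units.mk0 π hπ0) ^ j, Or.inr ?_⟩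
      have h3 : prin (Units.mk0 π hπ0) v = 1 := by
        have h4 := Pool.Agent.Q128.AR.val_prin (Units.mk0 π hπ0) v
        rw [Units.val_mk0, hπ] at h4
        have h5 : (WithZero.exp (-1 : ℤ)) = WithZero.exp (-(prin (Units.mk0 π hπ0) v)) := h4
        have h6 := WithZero.exp_injective h5
        omega
      have h7 : prin (x / (Units.mk0 π hπ0 ^ j) ^ 2) v = 0 := by
        have h8 : ∀ b : kˣ, prin (b ^ j) v = j * prin b v := fun b => by
          have h9 : prin (b ^ j) = j • prin b :=
            map_zsmul (Pool.Agent.Q92.AR.prinHom (F := k)) j (Additive.ofMul b)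
          rw [h9, Finsupp.smul_apply, smul_eq_mul]
        rw [Pool.Agent.Q92.AR.prin_div, Finsupp.sub_apply, pow_two, Pool.Agent.Q92.AR.prin_mul,
          Finsupp.add_apply, h8, h3, hj]
        ring
      rw [Pool.Agent.Q128.AR.val_prin, h7, neg_zero, WithZero.exp_zero]
    · exact ⟨1, Or.inl (split_of h2 hns)⟩
  set x1 : kˣ := x / a ^ 2 with hx1
  obtain ⟨N, hN, hNv, hNm⟩ := ex_nat v m
  have hN1 : v.valuation k (N : k) < 1 := Pool.Agent.Q38.EX.val_nat_lt_one hNv
  obtain ⟨z, hz⟩ := Pool.Agent.Q38.EX.approx (K := k) hN (fun w => if w = v then x1 else 1)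
  have hzv : v.valuation k ((z : k) / (x1 : k) - 1) ≤ v.valuation k (N : k) := by
    have := hz v hNv
    rwa [if_pos rfl] at this
  obtain ⟨y, -, -, hy, -⟩ := Pool.Agent.Q38.EX.nrm k E N z hN (by
    intro w hw
    by_cases hwv : w = v
    · subst hwv
      right
      rcases ha with ha | ha
      · exact Or.inl ha
      · refine Or.inr ⟨hunr, ?_⟩
        have h3 := Pool.Agent.Q38.EX.near_one (w.valuation k) hN1 hzv
        rw [map_div₀, ha, div_one] at h3
        exact h3
    · left
      have := hz w hw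
      rw [if_neg hwv, Units.val_one, div_one] at this
      exact this)
  have h4 := Pool.Agent.Q38.EX.near_div (v.valuation k) hN1 (hy v hNv) hzv
  refine ⟨y * up k E a, ?_⟩
  have h5 : (x : k) / (nu k E (y * up k E a) : k) =
      (z : k) / (nu k E y : k) / ((z : k) / (x1 : k)) := by
    rw [map_mul, nu_up h2, hx1]
    have hz0 := z.ne_zero
    have hx0 := x.ne_zero
    have ha0 := a.ne_zero
    have hy0 := (nu k E y).ne_zero
    simp only [Units.val_mul, Units.val_div_eq_div_val, Units.val_pow_eq_pow_val]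
    field_simp
  rw [h5]
  exact h4.trans hNm

end Pool.Agent.Q285.MZ
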