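import Mathlib

/-!
# Binomial coefficients modulo a prime
-/

namespace Pool.Agent.Q285.MZ

open Finset Polynomial

/-- coefficients of `(1+z)^N (1+z^(p^t))^β` modulo `p` -/
lemma coeff_expand (p : ℕ) [Fact p.Prime] (t N β c : ℕ) :
    (((N + p ^ t * β).choose c : ℕ) : ZMod p)
      = ∑ k ∈ range (c + 1), ((β.choose k : ℕ) : ZMod p)
          * (if p ^ t * k ≤ c then ((N.choose (c - p ^ t * k) : ℕ) : ZMod p) else 0) := by
  have hp : 0 < p ^ t := pow_pos (Fact.out : p.Prime).pos t
  have h1 : ((1 : (ZMod p)[X]) + X) ^ (N + p ^ t * β) = (1 + X) ^ N * (1 + X ^ (p ^ t)) ^ β := by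
    rw [pow_add, pow_mul, add_pow_char_pow, one_pow]
  have h2 := congrArg (fun P => P.coeff c) h1
  simp only [coeff_one_add_X_pow] at h2
  have h0 : ((1 : (ZMod p)[X]) + X ^ (p ^ t)) ^ β
      = ∑ k ∈ range (β + 1), (X ^ (p ^ t)) ^ k * 1 ^ (β - k) * ((β.choose k : ℕ) : (ZMod p)[X]) := by
    rw [add_comm, add_pow]
  rw [h2, h0, Finset.mul_sum, Polynomial.finset_sum_coeff]
  have h3 : ∀ k, ((1 + X : (ZMod p)[X]) ^ N * ((X ^ (p ^ t)) ^ k * 1 ^ (β - k) * ((β.choose k : ℕ) : (ZMod p)[X]))).coeff c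
      = ((β.choose k : ℕ) : ZMod p)
          * (if p ^ t * k ≤ c then ((N.choose (c - p ^ t * k) : ℕ) : ZMod p) else 0) := by
    intro k
    have : (1 + X : (ZMod p)[X]) ^ N * ((X ^ (p ^ t)) ^ k * 1 ^ (β - k) * ((β.choose k : ℕ) : (ZMod p)[X]))
        = C ((β.choose k : ℕ) : ZMod p) * ((1 + X) ^ N * X ^ (p ^ t * k)) := by
      rw [← pow_mul, one_pow, mul_one]
      simp only [map_natCast]
      ring
    rw [this, coeff_C_mul, coeff_mul_X_pow', coeff_one_add_X_pow]
  rw [Finset.sum_congr rfl (fun k _ => h3 k)]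
  -- extend both ranges
  have e1 : ∑ k ∈ range (β + 1), ((β.choose k : ℕ) : ZMod p)
          * (if p ^ t * k ≤ c then ((N.choose (c - p ^ t * k) : ℕ) : ZMod p) else 0)
      = ∑ k ∈ range (β + 1 + (c + 1)), ((β.choose k : ℕ) : ZMod p)
          * (if p ^ t * k ≤ c then ((N.choose (c - p ^ t * k) : ℕ) : ZMod p) else 0) := by
    refine Finset.sum_subset (Finset.range_mono (by omega)) fun k _ hk => ?_
    rw [Nat.choose_eq_zero_of_lt (by simpa using hk)]; simp
  have e2 : ∑ k ∈ range (c + 1), ((β.choose k : ℕ) : ZMod p)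
          * (if p ^ t * k ≤ c then ((N.choose (c - p ^ t * k) : ℕ) : ZMod p) else 0)
      = ∑ k ∈ range (β + 1 + (c + 1)), ((β.choose k : ℕ) : ZMod p)
          * (if p ^ t * k ≤ c then ((N.choose (c - p ^ t * k) : ℕ) : ZMod p) else 0) := by
    refine Finset.sum_subset (Finset.range_mono (by omega)) fun k _ hk => ?_
    have hk' : c + 1 ≤ k := by simpa using hk
    have : ¬ p ^ t * k ≤ c := by nlinarith
    rw [if_neg this, mul_zero]
  rw [e1, e2]

lemma choose_add_mul (p : ℕ) [Fact p.Prime] (r N A c : ℕ) (hc : c < p ^ r) :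
    (((N + p ^ r * A).choose c : ℕ) : ZMod p) = ((N.choose c : ℕ) : ZMod p) := by
  rw [coeff_expand, Finset.sum_eq_single 0]
  · simp
  · intro k _ hk
    have : ¬ p ^ r * k ≤ c := by
      have : 1 ≤ k := Nat.one_le_iff_ne_zero.2 hk
      nlinarith
    rw [if_neg this, mul_zero]
  · intro h; simp at h

/-- `binom (q - 1 + N) (q - 1)` modulo `p` is the indicator of `q ∣ N` -/
lemma choose_ind (p : ℕ) [Fact p.Prime] (r N : ℕ) :
    (((p ^ r - 1 + N).choose (p ^ r - 1) : ℕ) : ZMod p) = if p ^ r ∣ N then 1 else 0 := by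
  have hq : 0 < p ^ r := pow_pos (Fact.out : p.Prime).pos r
  have hdm := Nat.mod_add_div N (p ^ r)
  have hlt := Nat.mod_lt N hq
  rcases Nat.eq_zero_or_pos (N % p ^ r) with h0 | hpos
  · rw [if_pos (Nat.dvd_of_mod_eq_zero h0)]
    have : p ^ r - 1 + N = (p ^ r - 1) + p ^ r * (N / p ^ r) := by omega
    rw [this, choose_add_mul p r _ _ _ (by omega), Nat.choose_self, Nat.cast_one]
  · rw [if_neg (fun h => by have := Nat.mod_eq_zero_of_dvd h; omega)]
    have : p ^ r - 1 + N = (N % p ^ r - 1) + p ^ r * (N / p ^ r + 1) := by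
      rw [mul_add, mul_one]; omega
    rw [this, choose_add_mul p r _ _ _ (by omega), Nat.choose_eq_zero_of_lt (by omega), Nat.cast_zero]

/-- `binom (m j - 1) (m - 1)` is not divisible by `p` for `m = p ^ s` -/
lemma choose_not_dvd (p : ℕ) [Fact p.Prime] (s j : ℕ) (hj : 1 ≤ j) :
    ¬ p ∣ (p ^ s * j - 1).choose (p ^ s - 1) := by
  have hp := (Fact.out : p.Prime)
  induction s with
  | zero => simp [hp.one_lt.ne']
  | succ s ih =>
    intro hdvd
    apply ih
    have h := Choose.choose_modEq_choose_mod_mul_choose_div_nat (p := p)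
      (n := p ^ (s + 1) * j - 1) (k := p ^ (s + 1) - 1)
    have hps : 0 < p ^ s := pow_pos hp.pos s
    have hpsj : 0 < p ^ s * j := Nat.mul_pos hps hj
    have e1 : p ^ (s + 1) * j - 1 = (p - 1) + p * (p ^ s * j - 1) := by
      have : p ^ (s + 1) * j = p * (p ^ s * j - 1) + p := by
        rw [pow_succ, ← Nat.mul_succ, Nat.succ_eq_add_one, Nat.sub_add_cancel hpsj]; ring
      have := hp.pos
      omega
    have e2 : p ^ (s + 1) - 1 = (p - 1) + p * (p ^ s - 1) := by
      have : p ^ (s + 1) = p * (p ^ s - 1) + p := by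
        rw [pow_succ, ← Nat.mul_succ, Nat.succ_eq_add_one, Nat.sub_add_cancel hps]; ring
      have := hp.pos
      omega
    have hlt : p - 1 < p := Nat.sub_lt hp.pos one_pos
    rw [e1, e2, Nat.add_mul_mod_self_left, Nat.add_mul_mod_self_left, Nat.mod_eq_of_lt hlt,
      Nat.add_mul_div_left _ _ hp.pos, Nat.add_mul_div_left _ _ hp.pos, Nat.div_eq_of_lt hlt,
      zero_add, zero_add, Nat.choose_self, one_mul, ← e1, ← e2] at h
    exact (Nat.ModEq.dvd_iff h dvd_rfl).1 hdvd

/-- the product of binomial coefficients counting ordered-block partitions -/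
def Mp (m n : ℕ) : ℕ := ∏ j ∈ range n, (m * (j + 1) - 1).choose (m - 1)

lemma Mp_spec (m n : ℕ) (hm : 1 ≤ m) :
    m.factorial ^ n * n.factorial * Mp m n = (m * n).factorial := by
  induction n with
  | zero => simp [Mp]
  | succ n ih =>
    have h1 : (m * (n + 1)).factorial
        = (m * (n + 1)).choose m * m.factorial * (m * n).factorial := by
      have := Nat.choose_mul_factorial_mul_factorial (n := m * (n + 1)) (k := m) (by nlinarith)
      rw [← this]
      congr 2
      rw [Nat.mul_succ]; omega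
    have h2 : (m * (n + 1)).choose m = (n + 1) * (m * (n + 1) - 1).choose (m - 1) := by
      obtain ⟨m', rfl⟩ : ∃ m', m = m' + 1 := ⟨m - 1, by omega⟩
      have h3 := Nat.add_one_mul_choose_eq ((m' + 1) * (n + 1) - 1) m'
      have h4 : ((m' + 1) * (n + 1) - 1) + 1 = (m' + 1) * (n + 1) := by
        have : 0 < (m' + 1) * (n + 1) := by positivity
        omega
      rw [h4] at h3
      have h5 : (m' + 1 - 1) = m' := by omega
      rw [h5]
      have h6 : (m' + 1) * ((n + 1) * ((m' + 1) * (n + 1) - 1).choose m')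
          = (m' + 1) * ((m' + 1) * (n + 1)).choose (m' + 1) := by
        calc (m' + 1) * ((n + 1) * ((m' + 1) * (n + 1) - 1).choose m')
            = (m' + 1) * (n + 1) * ((m' + 1) * (n + 1) - 1).choose m' := by ring
          _ = ((m' + 1) * (n + 1)).choose (m' + 1) * (m' + 1) := h3
          _ = _ := by ring
      exact (Nat.eq_of_mul_eq_mul_left (by omega) h6).symm
    rw [h1, h2, ← ih, Mp, Mp, Finset.prod_range_succ, Nat.factorial_succ, pow_succ]
    ring

lemma Mp_not_dvd (p : ℕ) [Fact p.Prime] (s n : ℕ) : ¬ p ∣ Mp (p ^ s) n := by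
  have hp := (Fact.out : p.Prime)
  unfold Mp
  rw [Prime.dvd_finset_prod_iff hp.prime]
  rintro ⟨j, _, hj⟩
  exact choose_not_dvd p s (j + 1) (by omega) hj

lemma factorial_total (m n : ℕ) (hm : 1 ≤ m) :
    (m * n + (m - 1)).factorial
      = m.factorial ^ n * n.factorial * (m - 1).factorial
          * (Mp m n * (m * (n + 1) - 1).choose (m - 1)) := by
  have h1 := Nat.choose_mul_factorial_mul_factorial (n := m * n + (m - 1)) (k := m - 1) (by omega)
  have h2 : m * n + (m - 1) - (m - 1) = m * n := by omega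
  rw [h2, ← Mp_spec m n hm] at h1
  have h3 : m * n + (m - 1) = m * (n + 1) - 1 := by rw [Nat.mul_succ]; omega
  rw [← h1, h3]
  ring

/-- The alternating sum of `binom (Q + α binom (w+1) m) n * binom w (m-1)`. -/
lemma alt_top (Q α m n : ℕ) (hm : 1 ≤ m) (hα : 1 ≤ α) :
    ∑ w ∈ range (m * n + (m - 1) + 1),
        (-1 : ℤ) ^ (m * n + (m - 1) - w) * ((m * n + (m - 1)).choose w : ℤ)
          * (((Q + α * (w + 1).choose m).choose n : ℤ) * (w.choose (m - 1) : ℤ))
      = (α : ℤ) ^ n * (Mp m n * (m * (n + 1) - 1).choose (m - 1) : ℕ) := by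
  set N := m * n + (m - 1) with hN
  -- the polynomial
  let A : ℚ[X] := (descPochhammer ℚ m).comp (X + 1)
  let B : ℚ[X] := C (Q : ℚ) + C ((α : ℚ) / m.factorial) * A
  let P : ℚ[X] := (descPochhammer ℚ n).comp B * descPochhammer ℚ (m - 1)
  have hX1 : (X + 1 : ℚ[X]).natDegree = 1 := by
    have : (X + 1 : ℚ[X]) = X + C 1 := by simp
    rw [this, natDegree_X_add_C]
  have hX1l : (X + 1 : ℚ[X]).leadingCoeff = 1 := by
    have : (X + 1 : ℚ[X]) = X + C 1 := by simp
    rw [this, leadingCoeff_X_add_C]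
  have hAd : A.natDegree = m := by
    simp only [A, natDegree_comp, descPochhammer_natDegree, hX1, mul_one]
  have hAl : A.leadingCoeff = 1 := by
    simp only [A]
    rw [leadingCoeff_comp (by rw [hX1]; exact one_ne_zero), hX1l, one_pow, mul_one]
    exact monic_descPochhammer ℚ m
  have hc : ((α : ℚ) / m.factorial) ≠ 0 := by
    have : (α : ℚ) ≠ 0 := by exact_mod_cast (by omega : α ≠ 0)
    positivity
  have hCA : (C ((α : ℚ) / m.factorial) * A).natDegree = m := by
    rw [natDegree_C_mul hc, hAd]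
  have hBd : B.natDegree = m := by
    simp only [B]
    rw [natDegree_C_add, hCA]
  have hBl : B.leadingCoeff = (α : ℚ) / m.factorial := by
    simp only [B]
    rw [leadingCoeff_add_of_degree_lt, leadingCoeff_mul, leadingCoeff_C, hAl, mul_one]
    refine lt_of_le_of_lt degree_C_le ?_
    rw [← natDegree_pos_iff_degree_pos, hCA]
    exact hm
  have hPd : P.natDegree = N := by
    simp only [P]
    have h1 : (descPochhammer ℚ n).comp B ≠ 0 := by
      intro h
      have h2 := leadingCoeff_comp (p := descPochhammer ℚ n) (q := B) (by rw [hBd]; omega)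
      rw [h, leadingCoeff_zero, hBl, (monic_descPochhammer ℚ n).leadingCoeff, one_mul] at h2
      exact (pow_ne_zero _ hc) h2.symm
    have h2 : descPochhammer ℚ (m - 1) ≠ 0 := (monic_descPochhammer ℚ (m - 1)).ne_zero
    rw [natDegree_mul h1 h2, natDegree_comp, descPochhammer_natDegree, descPochhammer_natDegree, hBd,
      hN, mul_comm]
  have hPl : P.leadingCoeff = ((α : ℚ) / m.factorial) ^ n := by
    simp only [P]
    rw [leadingCoeff_mul, leadingCoeff_comp (by rw [hBd]; omega), hBl,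
      (monic_descPochhammer ℚ n).leadingCoeff, (monic_descPochhammer ℚ (m - 1)).leadingCoeff,
      one_mul, mul_one, descPochhammer_natDegree]
  have hval : ∀ w : ℕ, P.eval (w : ℚ)
      = (n.factorial * (m - 1).factorial : ℚ) * (((Q + α * (w + 1).choose m).choose n : ℚ)
          * (w.choose (m - 1) : ℚ)) := by
    intro w
    simp only [P, B, A, eval_mul, eval_comp, eval_add, eval_C, eval_X, eval_one]
    have e1 : (descPochhammer ℚ m).eval ((w : ℚ) + 1) = m.factorial * ((w + 1).choose m : ℚ) := by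
      have := descPochhammer_eval_eq_descFactorial ℚ (w + 1) m
      rw [Nat.descFactorial_eq_factorial_mul_choose] at this
      push_cast at this
      exact this
    rw [e1]
    have e2 : (Q : ℚ) + α / m.factorial * (m.factorial * ((w + 1).choose m : ℚ))
        = ((Q + α * (w + 1).choose m : ℕ) : ℚ) := by
      have : (m.factorial : ℚ) ≠ 0 := by exact_mod_cast m.factorial_ne_zero
      push_cast
      field_simp
    rw [e2, descPochhammer_eval_eq_descFactorial, descPochhammer_eval_eq_descFactorial,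
      Nat.descFactorial_eq_factorial_mul_choose, Nat.descFactorial_eq_factorial_mul_choose]
    push_cast
    ring
  have hfd := congrFun (Polynomial.fwdDiff_iter_degree_eq_factorial P) 0
  rw [hPd, fwdDiff_iter_eq_sum_shift] at hfd
  have hrhs : (P.leadingCoeff • (N.factorial : ℚ → ℚ)) 0 = P.leadingCoeff * (N.factorial : ℚ) := by
    simp
  rw [hrhs, hPl, factorial_total m n hm] at hfd
  have hlhs : ∑ k ∈ range (N + 1), ((-1 : ℤ) ^ (N - k) * (N.choose k : ℤ)) • P.eval ((0 : ℚ) + k • (1 : ℚ))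
      = (n.factorial * (m - 1).factorial : ℚ) * ((∑ w ∈ range (N + 1), (-1 : ℤ) ^ (N - w) * (N.choose w : ℤ)
          * (((Q + α * (w + 1).choose m).choose n : ℤ) * (w.choose (m - 1) : ℤ)) : ℤ) : ℚ) := by
    push_cast
    rw [Finset.mul_sum]
    refine Finset.sum_congr rfl fun k _ => ?_
    have : (0 : ℚ) + k • (1 : ℚ) = (k : ℚ) := by simp
    rw [this, hval, zsmul_eq_mul]
    push_cast
    ring
  rw [hlhs] at hfd
  have hne : (n.factorial * (m - 1).factorial : ℚ) ≠ 0 := by positivity
  have hmf : (m.factorial : ℚ) ≠ 0 := by exact_mod_cast m.factorial_ne_zero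
  have hfin : ((∑ w ∈ range (N + 1), (-1 : ℤ) ^ (N - w) * (N.choose w : ℤ)
          * (((Q + α * (w + 1).choose m).choose n : ℤ) * (w.choose (m - 1) : ℤ)) : ℤ) : ℚ)
      = (((α : ℤ) ^ n * (Mp m n * (m * (n + 1) - 1).choose (m - 1) : ℕ) : ℤ) : ℚ) := by
    refine mul_left_cancel₀ hne (hfd.trans ?_)
    have hpow : ((α : ℚ) / m.factorial) ^ n * (m.factorial : ℚ) ^ n = (α : ℚ) ^ n := by
      rw [← mul_pow, div_mul_cancel₀ _ hmf]
    push_cast
    calc _ = (((α : ℚ) / m.factorial) ^ n * (m.factorial : ℚ) ^ n) * ((n.factorial : ℚ)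
            * (m - 1).factorial * ((Mp m n : ℚ) * ((m * (n + 1) - 1).choose (m - 1) : ℚ))) := by ring
      _ = _ := by rw [hpow]; ring
  exact_mod_cast hfin

end Pool.Agent.Q285.MZ
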