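import Mathlib
import Pool.Agent.Q285.MZ.Deg
import Pool.Agent.Q285.MZ.Num

/-!
# The two steps of the polynomial method
-/

namespace Pool.Agent.Q285.MZ

set_option linter.unusedSectionVars false

open Finset

variable {ι : Type*} [DecidableEq ι]

/-- the elementary symmetric polynomial of the `a j`, `j ∈ Z` -/
def E (a : ι → ℕ) (m : ℕ) (Z : Finset ι) : ℕ := ∑ I ∈ Z.powersetCard m, ∏ j ∈ I, a j

lemma sum_powersetCard_insert {M : Type*} [AddCommMonoid M] (c : Finset ι → M) (m : ℕ)
    (X : Finset ι) (i : ι) (hi : i ∉ X) :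
    ∑ I ∈ (insert i X).powersetCard (m + 1), c I
      = ∑ I ∈ X.powersetCard (m + 1), c I + ∑ I ∈ X.powersetCard m, c (insert i I) := by
  rw [Finset.powersetCard_succ_insert hi, Finset.sum_union, Finset.sum_image]
  · intro I hI J hJ h
    have hI' : i ∉ I := fun h' => hi ((Finset.mem_powersetCard.1 hI).1 h')
    have hJ' : i ∉ J := fun h' => hi ((Finset.mem_powersetCard.1 hJ).1 h')
    rw [← Finset.erase_insert hI', ← Finset.erase_insert hJ', h]
  · rw [Finset.disjoint_left]
    intro I hI hI'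
    obtain ⟨J, _, rfl⟩ := Finset.mem_image.1 hI'
    exact hi ((Finset.mem_powersetCard.1 hI).1 (Finset.mem_insert_self i J))

lemma E_insert (a : ι → ℕ) (m : ℕ) (X : Finset ι) (i : ι) (hi : i ∉ X) :
    E a (m + 1) (insert i X) = E a (m + 1) X + a i * E a m X := by
  unfold E
  rw [sum_powersetCard_insert _ _ _ _ hi, Finset.mul_sum]
  congr 1
  refine Finset.sum_congr rfl fun I hI => ?_
  rw [Finset.prod_insert (fun h => hi ((Finset.mem_powersetCard.1 hI).1 h))]

lemma degOn_E (a : ι → ℕ) (m : ℕ) (Y : Finset ι) : DegOn Y m (fun X => (E a m X : ℚ)) := by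
  refine (degOn_powersetCard Y m (fun I => ((∏ j ∈ I, a j : ℕ) : ℚ))).congr fun X _ => ?_
  unfold E; push_cast; rfl

/-- Vandermonde's identity with the first two terms split off -/
lemma vander2 (A B n : ℕ) :
    (A + B).choose (n + 1) = A.choose (n + 1) + A.choose n * B
      + ∑ y ∈ range n, A.choose (n - 1 - y) * B.choose (y + 2) := by
  rw [add_comm A B, Nat.add_choose_eq, Finset.Nat.sum_antidiagonal_eq_sum_range_succ_mk,
    Finset.sum_range_succ', Finset.sum_range_succ']
  simp only [Nat.choose_zero_right, one_mul, zero_add, Nat.choose_one_right, Nat.sub_zero,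
    Nat.add_sub_cancel]
  have : ∑ y ∈ range n, B.choose (y + 1 + 1) * A.choose (n + 1 - (y + 1 + 1))
      = ∑ y ∈ range n, A.choose (n - 1 - y) * B.choose (y + 2) := by
    refine Finset.sum_congr rfl fun y hy => ?_
    have : n + 1 - (y + 1 + 1) = n - 1 - y := by omega
    rw [this, mul_comm]
  rw [this]
  ring

lemma vander1 (A B k : ℕ) :
    (A + B).choose k = A.choose k
      + ∑ y ∈ range k, A.choose (k - (y + 1)) * B.choose (y + 1) := by
  rw [add_comm A B, Nat.add_choose_eq, Finset.Nat.sum_antidiagonal_eq_sum_range_succ_mk,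
    Finset.sum_range_succ']
  simp only [Nat.choose_zero_right, one_mul, Nat.sub_zero]
  rw [add_comm]
  congr 1
  exact Finset.sum_congr rfl fun y _ => mul_comm _ _

/-- The step modulo `p`. -/
lemma step_zero (p : ℕ) [Fact p.Prime] (r s : ℕ) (hr : 1 ≤ r) (hs : 1 ≤ s) (a : ι → ℕ)
    (Y : Finset ι) (i : ι) (hi : i ∉ Y) (hY : Y.card = p ^ s * (p ^ r - 1) - 1)
    (h0 : ∀ X, X ⊆ Y → (p ^ r ∣ E a (p ^ s) X ↔ X.card < p ^ s))
    (h1 : ∀ X, X ⊆ Y → (p ^ r ∣ E a (p ^ s) (insert i X) ↔ X.card + 1 < p ^ s)) :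
    (a i : ZMod p) * alt Y (fun X => (((p ^ r - 1 + E a (p ^ s) X).choose (p ^ r - 2)
      * E a (p ^ s - 1) X : ℕ) : ZMod p))
      = (-1) * ((-1) ^ (p ^ s - 1) * ((Y.card.choose (p ^ s - 1) : ℕ) : ZMod p)) := by
  have hp := (Fact.out : p.Prime)
  obtain ⟨m, hm⟩ : ∃ m, p ^ s = m + 1 := ⟨p ^ s - 1, by have := pow_pos hp.pos s; omega⟩
  have hm1 : 1 ≤ m := by
    have : p ^ 1 ≤ p ^ s := Nat.pow_le_pow_right hp.pos hs
    have := hp.two_le
    simp only [pow_one] at *
    omega
  have hq2 : 2 ≤ p ^ r := by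
    have : p ^ 1 ≤ p ^ r := Nat.pow_le_pow_right hp.pos hr
    have := hp.two_le
    simp only [pow_one] at *
    omega
  obtain ⟨n, hn⟩ : ∃ n, p ^ r = n + 2 := ⟨p ^ r - 2, by omega⟩
  have hI : ∀ N, (((p ^ r - 1 + N).choose (p ^ r - 1) : ℕ) : ZMod p) = if p ^ r ∣ N then 1 else 0 :=
    fun N => choose_ind p r N
  rw [hm] at h0 h1 hY ⊢
  have e1 : p ^ r - 1 = n + 1 := by omega
  have e2 : p ^ r - 2 = n := by omega
  rw [e1] at hI hY ⊢
  rw [e2]
  simp only [Nat.add_sub_cancel]
  -- the remainder has small degree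
  have hrem : alt Y (fun X => ((∑ y ∈ range n, (n + 1 + E a (m + 1) X).choose (n - 1 - y)
      * (a i * E a m X).choose (y + 2) : ℕ) : ℤ)) = 0 := by
    refine alt_eq_zero_int (d := (m + 1) * (n + 1) - 2) ?_ ?_
    · have hd : ∀ y ∈ range n, DegOn Y ((m + 1) * (n + 1) - 2)
          (fun X => ((n + 1 + E a (m + 1) X).choose (n - 1 - y) : ℚ)
            * ((a i * E a m X).choose (y + 2) : ℚ)) := by
        intro y hy
        have hy' : y < n := Finset.mem_range.1 hy
        have d1 : DegOn Y ((m + 1) * (n - 1 - y)) (fun X => ((n + 1 + E a (m + 1) X).choose (n - 1 - y) : ℚ)) := by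
          refine DegOn.choose (φ := fun X => n + 1 + E a (m + 1) X) ?_ _
          refine ((degOn_const Y (m + 1) ((n : ℚ) + 1)).add (degOn_E a (m + 1) Y)).congr fun X _ => ?_
          push_cast; ring
        have d2 : DegOn Y (m * (y + 2)) (fun X => ((a i * E a m X).choose (y + 2) : ℚ)) := by
          refine DegOn.choose (φ := fun X => a i * E a m X) ?_ _
          refine ((degOn_E a m Y).smul (a i : ℚ)).congr fun X _ => ?_
          push_cast; ring
        refine (d1.mul d2).mono ?_
        obtain ⟨z, hz⟩ : ∃ z, n = y + 1 + z := ⟨n - 1 - y, by omega⟩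
        have : n - 1 - y = z := by omega
        rw [this]
        have : (m + 1) * (n + 1) - 2 = (m + 1) * z + (m * (y + 2) + y) := by
          rw [hz]; ring_nf; omega
        omega
      refine (DegOn.sum (range n) hd).congr fun X _ => ?_
      push_cast
      rfl
    · rw [hY]
      have : 2 ≤ (m + 1) * (n + 1) := by nlinarith
      omega
  have hkey : alt Y (fun X => (((n + 1 + E a (m + 1) (insert i X)).choose (n + 1) : ℕ) : ℤ))
      - alt Y (fun X => (((n + 1 + E a (m + 1) X).choose (n + 1) : ℕ) : ℤ))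
      = (a i : ℤ) * alt Y (fun X => (((n + 1 + E a (m + 1) X).choose n * E a m X : ℕ) : ℤ)) := by
    have : ∀ X ∈ Y.powerset, (-1 : ℤ) ^ X.card * (((n + 1 + E a (m + 1) (insert i X)).choose (n + 1) : ℕ) : ℤ)
        - (-1 : ℤ) ^ X.card * (((n + 1 + E a (m + 1) X).choose (n + 1) : ℕ) : ℤ)
        = (a i : ℤ) * ((-1 : ℤ) ^ X.card * (((n + 1 + E a (m + 1) X).choose n * E a m X : ℕ) : ℤ))
          + (-1 : ℤ) ^ X.card * ((∑ y ∈ range n, (n + 1 + E a (m + 1) X).choose (n - 1 - y)
            * (a i * E a m X).choose (y + 2) : ℕ) : ℤ) := by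
      intro X hX
      have hiX : i ∉ X := fun h => hi (Finset.mem_powerset.1 hX h)
      rw [E_insert a m X i hiX, ← add_assoc, vander2]
      push_cast
      ring
    have hs' := Finset.sum_congr rfl this
    rw [Finset.sum_sub_distrib, Finset.sum_add_distrib, ← Finset.mul_sum] at hs'
    unfold alt at hrem ⊢
    rw [hrem, add_zero] at hs'
    exact hs'
  -- reduce modulo p
  have hmod : alt Y (fun X => (((n + 1 + E a (m + 1) (insert i X)).choose (n + 1) : ℕ) : ZMod p))
      - alt Y (fun X => (((n + 1 + E a (m + 1) X).choose (n + 1) : ℕ) : ZMod p))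
      = (a i : ZMod p) * alt Y (fun X => (((n + 1 + E a (m + 1) X).choose n * E a m X : ℕ) : ZMod p)) := by
    have := congrArg (fun z : ℤ => (z : ZMod p)) hkey
    unfold alt at this ⊢
    push_cast at this ⊢
    exact this
  rw [← hmod]
  have f1 : alt Y (fun X => (((n + 1 + E a (m + 1) (insert i X)).choose (n + 1) : ℕ) : ZMod p))
      = alt Y (fun X => (fun w : ℕ => if w + 1 < m + 1 then (1 : ZMod p) else 0) X.card) := by
    refine Finset.sum_congr rfl fun X hX => ?_
    dsimp only
    rw [hI]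
    simp only [h1 X (Finset.mem_powerset.1 hX)]
  have f2 : alt Y (fun X => (((n + 1 + E a (m + 1) X).choose (n + 1) : ℕ) : ZMod p))
      = alt Y (fun X => (fun w : ℕ => if w < m + 1 then (1 : ZMod p) else 0) X.card) := by
    refine Finset.sum_congr rfl fun X hX => ?_
    dsimp only
    rw [hI]
    simp only [h0 X (Finset.mem_powerset.1 hX)]
  rw [f1, f2, alt_card Y (fun w : ℕ => if w + 1 < m + 1 then (1 : ZMod p) else 0),
    alt_card Y (fun w : ℕ => if w < m + 1 then (1 : ZMod p) else 0), ← Finset.sum_sub_distrib]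
  have hmY : m ≤ Y.card := by
    rw [hY]
    have : m + 1 ≤ (m + 1) * (n + 1) := Nat.le_mul_of_pos_right _ (by omega)
    omega
  rw [Finset.sum_eq_single m]
  · simp
  · intro w _ hw
    have : (w + 1 < m + 1) ↔ (w < m + 1) := by omega
    simp only [this, sub_self]
  · intro h
    exact absurd (Finset.mem_range.2 (by omega)) h

/-- the sum of the quotients of the products by `p ^ t` -/
def bet (a : ι → ℕ) (d m : ℕ) (Z : Finset ι) : ℕ := ∑ I ∈ Z.powersetCard m, (∏ j ∈ I, a j) / d

/-- the linear part -/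
def gam (a : ι → ℕ) (d m : ℕ) (i : ι) (X : Finset ι) : ℕ :=
  ∑ I ∈ X.powersetCard m, (∏ j ∈ insert i I, a j) / d

lemma degOn_bet (a : ι → ℕ) (d m : ℕ) (Y : Finset ι) : DegOn Y m (fun X => (bet a d m X : ℚ)) := by
  refine (degOn_powersetCard Y m (fun I => (((∏ j ∈ I, a j) / d : ℕ) : ℚ))).congr fun X _ => ?_
  unfold bet; push_cast; rfl

lemma degOn_gam (a : ι → ℕ) (d m : ℕ) (i : ι) (Y : Finset ι) :
    DegOn Y m (fun X => (gam a d m i X : ℚ)) := by
  refine (degOn_powersetCard Y m (fun I => (((∏ j ∈ insert i I, a j) / d : ℕ) : ℚ))).congr fun X _ => ?_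
  unfold gam; push_cast; rfl

lemma bet_insert (a : ι → ℕ) (d m : ℕ) (X : Finset ι) (i : ι) (hi : i ∉ X) :
    bet a d (m + 1) (insert i X) = bet a d (m + 1) X + gam a d m i X := by
  unfold bet gam
  rw [sum_powersetCard_insert _ _ _ _ hi]

lemma E_eq_bet (u d m : ℕ) (b : ι → ℕ) (a : ι → ℕ) (ha : ∀ j, a j = u + d * b j) (Z : Finset ι) :
    E a m Z = (u ^ m % d) * Z.card.choose m + d * bet a d m Z := by
  unfold E bet
  have h : ∀ I ∈ Z.powersetCard m, ∏ j ∈ I, a j = u ^ m % d + d * ((∏ j ∈ I, a j) / d) := by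
    intro I hI
    have hc := (Finset.mem_powersetCard.1 hI).2
    have h1 : (∏ j ∈ I, a j) % d = u ^ m % d := by
      rw [Finset.prod_nat_mod, Finset.prod_congr rfl (g := fun _ => u % d)
        (fun j _ => by rw [ha j, Nat.add_mul_mod_self_left]), ← Finset.prod_nat_mod,
        Finset.prod_const, hc]
    rw [← h1, Nat.mod_add_div]
  rw [Finset.sum_congr rfl h, Finset.sum_add_distrib, Finset.sum_const, Finset.card_powersetCard,
    smul_eq_mul, ← Finset.mul_sum, mul_comm]

/-- The step modulo `p ^ (t + 1)`. -/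
lemma step_t (p : ℕ) [Fact p.Prime] (r s t : ℕ) (ht : 1 ≤ t) (htr : t < r) (u : ℕ) (hu : ¬ p ∣ u)
    (a b : ι → ℕ) (ha : ∀ j, a j = u + p ^ t * b j)
    (Y : Finset ι) (i i' : ι) (hi : i ∉ Y) (hi' : i' ∉ Y)
    (hY : Y.card = p ^ s * (p ^ r - p ^ t) - 1)
    (h : ∀ X, X ⊆ Y → (p ^ r ∣ E a (p ^ s) (insert i X) ↔ p ^ r ∣ E a (p ^ s) (insert i' X))) :
    (b i : ZMod p) = b i' := by
  have hp := (Fact.out : p.Prime)
  obtain ⟨m, hm⟩ : ∃ m, p ^ s = m + 1 := ⟨p ^ s - 1, by have := pow_pos hp.pos s; omega⟩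
  have hd2 : 2 ≤ p ^ t := by
    have : p ^ 1 ≤ p ^ t := Nat.pow_le_pow_right hp.pos ht
    have := hp.two_le
    simp only [pow_one] at *
    omega
  have hdq : p ^ t < p ^ r := Nat.pow_lt_pow_right hp.one_lt htr
  obtain ⟨n, hn⟩ : ∃ n, p ^ r - 1 = n + p ^ t := ⟨p ^ r - 1 - p ^ t, by omega⟩
  have hYn : Y.card = (m + 1) * n + m := by
    have h1 : p ^ r - p ^ t = n + 1 := by omega
    rw [hY, hm, h1, Nat.mul_succ]; omega
  set d := p ^ t with hd
  set α := u ^ (m + 1) % d with hα
  have hpd : p ∣ d := dvd_pow_self p (by omega)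
  have hpα : ¬ p ∣ α := by
    rw [hα, Nat.dvd_mod_iff hpd]
    exact fun h => hu (hp.dvd_of_dvd_pow h)
  have hα1 : 1 ≤ α := by
    rcases Nat.eq_zero_or_pos α with h0 | h0
    · rw [h0] at hpα; exact absurd (dvd_zero p) hpα
    · exact h0
  -- the integer functions
  let G : ℕ → Finset ι → ℤ := fun k X =>
    (((bet a d (m + 1) X + gam a d m i X).choose k : ℕ) - ((bet a d (m + 1) X + gam a d m i' X).choose k : ℕ) : ℤ)
      * (if d * k ≤ n + d then (((n + d + α * (X.card + 1).choose (m + 1)).choose (n + d - d * k) : ℕ) : ℤ) else 0)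
  have hG : ∀ X ∈ Y.powerset, ∑ k ∈ range (n + d + 1), ((G k X : ℤ) : ZMod p) = 0 := by
    intro X hX
    have hXY := Finset.mem_powerset.1 hX
    have hiX : i ∉ X := fun h => hi (hXY h)
    have hiX' : i' ∉ X := fun h => hi' (hXY h)
    have e1 := choose_ind p r (E a (p ^ s) (insert i X))
    have e2 := choose_ind p r (E a (p ^ s) (insert i' X))
    rw [if_congr (h X hXY) rfl rfl, ← e2, hm, hn, E_eq_bet u d (m + 1) b a ha, E_eq_bet u d (m + 1) b a ha,
      ← add_assoc, ← add_assoc, coeff_expand, coeff_expand, Finset.card_insert_of_notMem hiX,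
      Finset.card_insert_of_notMem hiX', bet_insert _ _ _ _ _ hiX, bet_insert _ _ _ _ _ hiX',
      ← sub_eq_zero, ← Finset.sum_sub_distrib] at e1
    rw [← e1]
    refine Finset.sum_congr rfl fun k _ => ?_
    simp only [G]
    split_ifs <;> push_cast <;> ring
  have hG0 : alt Y (G 0) = 0 := by
    unfold alt
    refine Finset.sum_eq_zero fun X _ => ?_
    simp [G]
  have hGk : ∀ k, 2 ≤ k → alt Y (G k) = 0 := by
    intro k hk
    by_cases hdk : d * k ≤ n + d
    · obtain ⟨z, hz⟩ : ∃ z, n + d = d * k + z := ⟨n + d - d * k, by omega⟩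
      have hz' : n + d - d * k = z := by omega
      have hkd : k + d ≤ d * k := by
        obtain ⟨k', rfl⟩ : ∃ k', k = k' + 2 := ⟨k - 2, by omega⟩
        obtain ⟨d', hd'⟩ : ∃ d', d = d' + 2 := ⟨d - 2, by omega⟩
        rw [hd']; nlinarith
      have hzk : z + k ≤ n := by omega
      refine alt_eq_zero_int (d := (m + 1) * k - 1 + (m + 1) * z) ?_ ?_
      · have hβ := degOn_bet a d (m + 1) Y
        have hγ := degOn_gam a d m i Y
        have hγ' := degOn_gam a d m i' Y
        have h1 : DegOn Y ((m + 1) * k - 1) (fun X => ∑ y ∈ range k,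
            ((bet a d (m + 1) X).choose (k - (y + 1)) : ℚ)
              * (((gam a d m i X).choose (y + 1) : ℚ) - ((gam a d m i' X).choose (y + 1) : ℚ))) := by
          refine DegOn.sum (range k) fun y hy => ?_
          have hy' := Finset.mem_range.1 hy
          refine ((hβ.choose _).mul ((hγ.choose _).sub (hγ'.choose _))).mono ?_
          obtain ⟨x, hx⟩ : ∃ x, k = y + 1 + x := ⟨k - (y + 1), by omega⟩
          have : k - (y + 1) = x := by omega
          rw [this]
          have : (m + 1) * k = (m + 1) * x + m * (y + 1) + (y + 1) := by rw [hx]; ring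
          omega
        have h2 : DegOn Y ((m + 1) * z) (fun X => ((n + d + α * (X.card + 1).choose (m + 1)).choose z : ℚ)) := by
          refine DegOn.choose (φ := fun X => n + d + α * (X.card + 1).choose (m + 1)) ?_ z
          have h3 : DegOn Y (1 * (m + 1)) (fun X => ((X.card + 1).choose (m + 1) : ℚ)) := by
            refine DegOn.choose (φ := fun X => X.card + 1) ?_ (m + 1)
            exact ((degOn_card Y).add (degOn_const Y 1 1)).congr fun X _ => by push_cast; ring
          rw [one_mul] at h3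
          exact ((degOn_const Y (m + 1) ((n : ℚ) + d)).add (h3.smul (α : ℚ))).congr
            fun X _ => by push_cast; ring
        refine (h1.mul h2).congr fun X _ => ?_
        simp only [G]
        rw [if_pos hdk, hz', vander1 (bet a d (m + 1) X) (gam a d m i X) k,
          vander1 (bet a d (m + 1) X) (gam a d m i' X) k]
        push_cast
        simp only [mul_sub, Finset.sum_sub_distrib]
        ring
      · rw [hYn]
        have h1 : 1 ≤ (m + 1) * k := by
          have : 1 * 1 ≤ (m + 1) * k := Nat.mul_le_mul (by omega) (by omega)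
          omega
        have h2 : (m + 1) * z + (m + 1) * k ≤ (m + 1) * n := by
          rw [← mul_add]; exact Nat.mul_le_mul_left _ hzk
        omega
    · unfold alt
      refine Finset.sum_eq_zero fun X _ => ?_
      simp only [G]
      rw [if_neg hdk, mul_zero, mul_zero]
  have hG1 : ((alt Y (G 1) : ℤ) : ZMod p) = 0 := by
    have h1 : ∑ k ∈ range (n + d + 1), ((alt Y (G k) : ℤ) : ZMod p) = 0 := by
      unfold alt
      push_cast
      rw [Finset.sum_comm]
      refine Finset.sum_eq_zero fun X hX => ?_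
      rw [← Finset.mul_sum, hG X hX, mul_zero]
    rw [Finset.sum_eq_single 1] at h1
    · exact h1
    · intro k _ hk
      rcases Nat.eq_zero_or_pos k with h0 | h0
      · rw [h0, hG0, Int.cast_zero]
      · rw [hGk k (by omega), Int.cast_zero]
    · intro hc
      exact absurd (Finset.mem_range.2 (by omega)) hc
  -- evaluate the linear term
  have hgam : ∀ (x : ι) (X : Finset ι), x ∉ X →
      gam a d m x X = ∑ I ∈ X.powersetCard m, (u * ∏ j ∈ I, a j) / d + b x * E a m X := by
    intro x X hx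
    unfold gam E
    rw [Finset.mul_sum, ← Finset.sum_add_distrib]
    refine Finset.sum_congr rfl fun I hI => ?_
    have hxI : x ∉ I := fun h => hx ((Finset.mem_powersetCard.1 hI).1 h)
    rw [Finset.prod_insert hxI, ha x, add_mul, mul_assoc, Nat.add_mul_div_left _ _ (by omega)]
  have hE : ∀ X : Finset ι, (E a m X : ZMod p) = (u : ZMod p) ^ m * (X.card.choose m : ZMod p) := by
    intro X
    rw [E_eq_bet u d m b a ha]
    obtain ⟨d', hd'⟩ := hpd
    have hz : (d : ZMod p) = 0 := by rw [hd']; simp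
    have h1 : ((u ^ m % d : ℕ) : ZMod p) = (u : ZMod p) ^ m := by
      have := congrArg (fun w : ℕ => (w : ZMod p)) (Nat.mod_add_div (u ^ m) d)
      push_cast at this ⊢
      rw [hz, zero_mul, add_zero] at this
      exact this
    push_cast [hz]
    rw [h1]; ring
  have hval : ((alt Y (G 1) : ℤ) : ZMod p)
      = ((b i : ZMod p) - b i') * (u : ZMod p) ^ m * alt Y (fun X => (fun w : ℕ =>
          (((n + d + α * (w + 1).choose (m + 1)).choose n : ℕ) : ZMod p) * (w.choose m : ZMod p)) X.card) := by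
    unfold alt
    rw [Finset.mul_sum]
    push_cast
    refine Finset.sum_congr rfl fun X hX => ?_
    have hXY := Finset.mem_powerset.1 hX
    have hiX : i ∉ X := fun h => hi (hXY h)
    have hiX' : i' ∉ X := fun h => hi' (hXY h)
    have e1 : n + d - d * 1 = n := by omega
    have e2 : d * 1 ≤ n + d := by omega
    simp only [G]
    rw [if_pos e2, e1, Nat.choose_one_right, Nat.choose_one_right, hgam i X hiX, hgam i' X hiX']
    push_cast [hE X]
    ring
  rw [hval, alt_card Y (fun w : ℕ =>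
          (((n + d + α * (w + 1).choose (m + 1)).choose n : ℕ) : ZMod p) * (w.choose m : ZMod p))] at hG1
  have htop := alt_top (n + d) α (m + 1) n (by omega) hα1
  have htop' : ∑ w ∈ range (Y.card + 1), (-1 : ZMod p) ^ w * (Y.card.choose w
      * ((((n + d + α * (w + 1).choose (m + 1)).choose n : ℕ) : ZMod p) * (w.choose m : ZMod p)))
      = (-1) ^ Y.card * ((α : ZMod p) ^ n * ((Mp (m + 1) n * ((m + 1) * (n + 1) - 1).choose m : ℕ) : ZMod p)) := by
    have := congrArg (fun w : ℤ => (w : ZMod p)) htop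
    simp only [Nat.add_sub_cancel] at this
    rw [← hYn] at this
    push_cast at this ⊢
    rw [← this, Finset.mul_sum]
    refine Finset.sum_congr rfl fun w hw => ?_
    have hw' : w ≤ Y.card := by have := Finset.mem_range.1 hw; omega
    have hpow : (-1 : ZMod p) ^ Y.card * (-1) ^ (Y.card - w) = (-1) ^ w := by
      obtain ⟨v, hv⟩ := Nat.exists_eq_add_of_le hw'
      have : Y.card - w = v := by omega
      rw [this, hv, pow_add, mul_assoc, ← pow_add, ← two_mul, pow_mul]
      simp
    rw [← hpow]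
    ring
  rw [htop'] at hG1
  have hu0 : (u : ZMod p) ≠ 0 := by
    rw [Ne, ZMod.natCast_eq_zero_iff]; exact hu
  have hα0 : (α : ZMod p) ≠ 0 := by
    rw [Ne, ZMod.natCast_eq_zero_iff]; exact hpα
  have hM0 : ((Mp (m + 1) n * ((m + 1) * (n + 1) - 1).choose m : ℕ) : ZMod p) ≠ 0 := by
    rw [Ne, ZMod.natCast_eq_zero_iff, hp.dvd_mul]
    rintro (h1 | h1)
    · exact Mp_not_dvd p s n (hm ▸ h1)
    · refine choose_not_dvd p s (n + 1) (by omega) ?_
      rw [hm]
      simpa using h1
  have hneg : ((-1 : ZMod p)) ^ Y.card ≠ 0 := pow_ne_zero _ (neg_ne_zero.2 one_ne_zero)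
  have hfin := hG1
  rcases mul_eq_zero.1 hfin with h1 | h1
  · rcases mul_eq_zero.1 h1 with h2 | h2
    · exact sub_eq_zero.1 h2
    · exact absurd h2 (pow_ne_zero _ hu0)
  · exact absurd h1 (mul_ne_zero hneg (mul_ne_zero (pow_ne_zero _ hα0) hM0))

end Pool.Agent.Q285.MZ
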