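import Mathlib
import Pool.Agent.Q285.MZ.Steps

/-!
# Extremal `p ^ s`-zero free families modulo `p ^ r`
-/

namespace Pool.Agent.Q285.MZ

set_option linter.unusedSectionVars false

open Finset

variable {ι : Type*} [DecidableEq ι] [Fintype ι]

/-- the nonempty subset sums -/
def SS {G : Type*} [AddCommGroup G] [DecidableEq G] (x : ι → G) (Z : Finset ι) : Finset G :=
  (Z.powerset.erase ∅).image fun X => ∑ j ∈ X, x j

lemma SS_card {G : Type*} [AddCommGroup G] [DecidableEq G] (x : ι → G)
    (hfree : ∀ X : Finset ι, X.Nonempty → ∑ j ∈ X, x j ≠ 0) (i i' : ι) (hne : i ≠ i')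
    (hx : x i ≠ x i') (W : Finset ι) (hi : i ∉ W) (hi' : i' ∉ W) :
    W.card + 3 ≤ (SS x (insert i (insert i' W))).card := by
  induction W using Finset.induction_on with
  | empty =>
    have hsub : ({x i, x i', x i + x i'} : Finset G) ⊆ SS x (insert i (insert i' ∅)) := by
      intro g hg
      simp only [Finset.mem_insert, Finset.mem_singleton] at hg
      unfold SS
      rw [Finset.mem_image]
      rcases hg with rfl | rfl | rfl
      · exact ⟨{i}, by simp, by simp⟩
      · exact ⟨{i'}, by simp, by simp⟩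
      · exact ⟨{i, i'}, by simp, by rw [Finset.sum_pair hne]⟩
    have h0 : x i ≠ 0 := by simpa using hfree {i} (Finset.singleton_nonempty i)
    have h0' : x i' ≠ 0 := by simpa using hfree {i'} (Finset.singleton_nonempty i')
    have hc : ({x i, x i', x i + x i'} : Finset G).card = 3 := by
      rw [Finset.card_insert_of_notMem, Finset.card_insert_of_notMem, Finset.card_singleton]
      · simp only [Finset.mem_singleton]
        intro h
        exact h0 (by simpa using h.symm)
      · simp only [Finset.mem_insert, Finset.mem_singleton, not_or]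
        refine ⟨hx, fun h => h0' (by simpa using h.symm)⟩
    have := Finset.card_le_card hsub
    simpa [hc] using this
  | insert w W hw ih =>
    have h1 : i ∉ W := fun h => hi (Finset.mem_insert_of_mem h)
    have h2 : i' ∉ W := fun h => hi' (Finset.mem_insert_of_mem h)
    have h3 : i ≠ w := fun h => hi (h ▸ Finset.mem_insert_self _ _)
    have h4 : i' ≠ w := fun h => hi' (h ▸ Finset.mem_insert_self _ _)
    have ih' := ih h1 h2
    set V := insert i (insert i' W) with hV
    have hwV : w ∉ V := by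
      simp only [hV, Finset.mem_insert, not_or]
      exact ⟨h3.symm, h4.symm, hw⟩
    have hVV : insert i (insert i' (insert w W)) = insert w V := by
      ext z; simp only [hV, Finset.mem_insert]; tauto
    rw [hVV, Finset.card_insert_of_notMem hw]
    have hss : SS x V ⊂ SS x (insert w V) := by
      rw [Finset.ssubset_iff_of_subset]
      · refine ⟨∑ j ∈ insert w V, x j, ?_, ?_⟩
        · unfold SS
          rw [Finset.mem_image]
          exact ⟨insert w V, by simp, rfl⟩
        · unfold SS
          rw [Finset.mem_image]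
          rintro ⟨X, hX, hXe⟩
          have hXV : X ⊆ V := Finset.mem_powerset.1 (Finset.mem_of_mem_erase hX)
          have hXw : X ⊆ insert w V := hXV.trans (Finset.subset_insert _ _)
          have hsd := Finset.sum_sdiff (f := x) hXw
          refine hfree (insert w V \ X) ⟨w, ?_⟩ ?_
          · rw [Finset.mem_sdiff]
            exact ⟨Finset.mem_insert_self _ _, fun h => hwV (hXV h)⟩
          · rw [hXe] at hsd
            simpa using hsd
      · refine Finset.image_subset_image ?_
        exact Finset.erase_subset_erase _ (Finset.powerset_mono.2 (Finset.subset_insert _ _))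
    have := Finset.card_lt_card hss
    omega

/-- the degree one case -/
lemma const_one (q : ℕ) (hq : 1 < q) (x : ι → ZMod q) (hcard : Fintype.card ι = q - 1)
    (hfree : ∀ X : Finset ι, X.Nonempty → ∑ j ∈ X, x j ≠ 0) (i i' : ι) : x i = x i' := by
  haveI : NeZero q := ⟨by omega⟩
  by_contra hx
  have hne : i ≠ i' := fun h => hx (h ▸ rfl)
  have h1 := SS_card x hfree i i' hne hx ((Finset.univ.erase i).erase i') (by simp) (by simp)
  have h2 : insert i (insert i' ((Finset.univ.erase i).erase i')) = (Finset.univ : Finset ι) := by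
    rw [Finset.insert_erase, Finset.insert_erase (Finset.mem_univ i)]
    exact Finset.mem_erase.2 ⟨hne.symm, Finset.mem_univ _⟩
  have h3 : ((Finset.univ.erase i).erase i').card = Fintype.card ι - 2 := by
    rw [Finset.card_erase_of_mem (Finset.mem_erase.2 ⟨hne.symm, Finset.mem_univ _⟩),
      Finset.card_erase_of_mem (Finset.mem_univ _), Finset.card_univ]
    omega
  have h4 : 2 ≤ Fintype.card ι := by
    have := Finset.card_le_card (Finset.subset_univ ({i, i'} : Finset ι))
    rwa [Finset.card_pair hne, Finset.card_univ] at this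
  have h5 : SS x Finset.univ ⊆ Finset.univ.erase (0 : ZMod q) := by
    intro g hg
    unfold SS at hg
    obtain ⟨X, hX, rfl⟩ := Finset.mem_image.1 hg
    refine Finset.mem_erase.2 ⟨hfree X ?_, Finset.mem_univ _⟩
    exact Finset.nonempty_iff_ne_empty.2 (Finset.mem_erase.1 hX).1
  have h6 := Finset.card_le_card h5
  rw [Finset.card_erase_of_mem (Finset.mem_univ _), Finset.card_univ, ZMod.card] at h6
  rw [h2, h3] at h1
  omega

lemma E_card_lt (a : ι → ℕ) (m : ℕ) (X : Finset ι) (h : X.card < m) : E a m X = 0 := by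
  unfold E
  rw [Finset.powersetCard_eq_empty.2 h, Finset.sum_empty]

/-- a set of given size avoiding two points -/
lemma exists_avoid (i i' : ι) (n : ℕ) (hn : n + 2 ≤ Fintype.card ι) :
    ∃ Y : Finset ι, i ∉ Y ∧ i' ∉ Y ∧ Y.card = n := by
  have h1 : n ≤ ((Finset.univ.erase i).erase i').card := by
    have h2 := Finset.pred_card_le_card_erase (s := (Finset.univ : Finset ι).erase i) (a := i')
    have h3 := Finset.pred_card_le_card_erase (s := (Finset.univ : Finset ι)) (a := i)
    rw [Finset.card_univ] at h3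
    omega
  obtain ⟨Y, hY, hc⟩ := Finset.exists_subset_card_eq h1
  refine ⟨Y, fun h => ?_, fun h => ?_, hc⟩
  · have := hY h; simp at this
  · have := hY h; simp at this

/-- congruence modulo `p` in the case of positive exponent -/
lemma mod_p (p : ℕ) [Fact p.Prime] (r s : ℕ) (hr : 1 ≤ r) (hs : 1 ≤ s) (a : ι → ℕ)
    (hcard : Fintype.card ι = p ^ s * p ^ r - 1)
    (hfree : ∀ Z : Finset ι, p ^ s ≤ Z.card → ¬ p ^ r ∣ E a (p ^ s) Z) (i i' : ι) :
    (a i : ZMod p) = a i' ∧ (a i : ZMod p) ≠ 0 := by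
  have hp := (Fact.out : p.Prime)
  have hm2 : 2 ≤ p ^ s := by
    have : p ^ 1 ≤ p ^ s := Nat.pow_le_pow_right hp.pos hs
    have := hp.two_le
    simp only [pow_one] at *
    omega
  have hq2 : 2 ≤ p ^ r := by
    have : p ^ 1 ≤ p ^ r := Nat.pow_le_pow_right hp.pos hr
    have := hp.two_le
    simp only [pow_one] at *
    omega
  have hsize : p ^ s * (p ^ r - 1) - 1 + 2 ≤ Fintype.card ι := by
    rw [hcard, Nat.mul_sub]
    have : p ^ s * 2 ≤ p ^ s * p ^ r := Nat.mul_le_mul_left _ hq2
    omega
  obtain ⟨Y, hiY, hiY', hYc⟩ := exists_avoid i i' _ hsize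
  have hdiv : ∀ Z : Finset ι, p ^ r ∣ E a (p ^ s) Z ↔ Z.card < p ^ s := by
    intro Z
    constructor
    · intro h
      by_contra hc
      exact hfree Z (by omega) h
    · intro h
      rw [E_card_lt a _ Z h]; exact dvd_zero _
  have hst : ∀ x, x ∉ Y → _ := fun x hx => step_zero p r s hr hs a Y x hx hYc (fun X _ => hdiv X)
    (fun X hX => by rw [hdiv, Finset.card_insert_of_notMem (fun h => hx (hX h))])
  have h1 := hst i hiY
  have h2 := hst i' hiY'
  have hne : ((-1 : ZMod p) * ((-1) ^ (p ^ s - 1) * ((Y.card.choose (p ^ s - 1) : ℕ) : ZMod p))) ≠ 0 := by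
    refine mul_ne_zero (neg_ne_zero.2 one_ne_zero) (mul_ne_zero (pow_ne_zero _ (neg_ne_zero.2 one_ne_zero)) ?_)
    rw [Ne, ZMod.natCast_eq_zero_iff, hYc]
    exact choose_not_dvd p s (p ^ r - 1) (by omega)
  refine ⟨?_, ?_⟩
  · have h3 := h1.trans h2.symm
    refine mul_right_cancel₀ ?_ h3
    intro h0
    rw [h0, mul_zero] at h1
    exact hne h1.symm
  · intro h0
    rw [h0, zero_mul] at h1
    exact hne h1.symm

/-- lifting the congruence -/
lemma lift (p : ℕ) [Fact p.Prime] (r s : ℕ) (a : ι → ℕ)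
    (hcard : Fintype.card ι = p ^ s * p ^ r - 1)
    (hfree : ∀ Z : Finset ι, p ^ s ≤ Z.card → ¬ p ^ r ∣ E a (p ^ s) Z)
    (hp1 : ∀ i i', a i ≡ a i' [MOD p]) (hp0 : ∀ i, ¬ p ∣ a i) (t : ℕ) (ht1 : 1 ≤ t) (htr : t ≤ r)
    (i i' : ι) : a i ≡ a i' [MOD p ^ t] := by
  have hp := (Fact.out : p.Prime)
  induction t, ht1 using Nat.le_induction generalizing i i' with
  | base => simpa using hp1 i i'
  | succ t ht1 ih =>
    have ih' := fun i i' => ih (by omega) i i'
    have hdt : 2 ≤ p ^ t := by
      have : p ^ 1 ≤ p ^ t := Nat.pow_le_pow_right hp.pos ht1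
      have := hp.two_le
      simp only [pow_one] at *
      omega
    have hdq : p ^ t < p ^ r := Nat.pow_lt_pow_right hp.one_lt (by omega)
    have hms : 1 ≤ p ^ s := Nat.one_le_iff_ne_zero.2 (pow_pos hp.pos s).ne'
    have hsize : p ^ s * (p ^ r - p ^ t) - 1 + 2 ≤ Fintype.card ι := by
      rw [hcard, Nat.mul_sub]
      have h1 : p ^ s * p ^ t + p ^ s ≤ p ^ s * p ^ r := by
        rw [← Nat.mul_succ]; exact Nat.mul_le_mul_left _ hdq
      have h2 : 1 * 2 ≤ p ^ s * p ^ t := Nat.mul_le_mul hms hdt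
      omega
    obtain ⟨Y, hiY, hiY', hYc⟩ := exists_avoid i i' _ hsize
    have hdiv : ∀ Z : Finset ι, p ^ r ∣ E a (p ^ s) Z ↔ Z.card < p ^ s := by
      intro Z
      constructor
      · intro h
        by_contra hc
        exact hfree Z (by omega) h
      · intro h
        rw [E_card_lt a _ Z h]; exact dvd_zero _
    have hab : ∀ j, a j = a i % p ^ t + p ^ t * (a j / p ^ t) := by
      intro j
      have : a i % p ^ t = a j % p ^ t := ih' i j
      rw [this, Nat.mod_add_div]
    have hu : ¬ p ∣ a i % p ^ t := by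
      rw [Nat.dvd_mod_iff (dvd_pow_self p (by omega))]
      exact hp0 i
    have hb := step_t p r s t ht1 (by omega) (a i % p ^ t) hu a (fun j => a j / p ^ t) hab Y i i'
      hiY hiY' hYc (fun X hX => by
        rw [hdiv, hdiv, Finset.card_insert_of_notMem (fun h => hiY (hX h)),
          Finset.card_insert_of_notMem (fun h => hiY' (hX h))])
    have hb' : a i / p ^ t ≡ a i' / p ^ t [MOD p] := (ZMod.natCast_eq_natCast_iff _ _ _).1 hb
    rw [hab i, hab i', pow_succ]
    exact Nat.ModEq.add_left _ (Nat.ModEq.mul_left' _ hb')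

/-- The main theorem for families. -/
theorem family (p : ℕ) [Fact p.Prime] (r s : ℕ) (hr : 1 ≤ r) (x : ι → ZMod (p ^ r))
    (hcard : Fintype.card ι = p ^ s * p ^ r - 1)
    (hfree : ∀ Z : Finset ι, p ^ s ≤ Z.card → ∑ I ∈ Z.powersetCard (p ^ s), ∏ j ∈ I, x j ≠ 0) :
    ∃ c, IsUnit c ∧ ∀ j, x j = c := by
  have hp := (Fact.out : p.Prime)
  haveI : NeZero (p ^ r) := ⟨(pow_pos hp.pos r).ne'⟩
  have hq2 : 2 ≤ p ^ r := by
    have : p ^ 1 ≤ p ^ r := Nat.pow_le_pow_right hp.pos hr
    have := hp.two_le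
    simp only [pow_one] at *
    omega
  have hms : 1 ≤ p ^ s := Nat.one_le_iff_ne_zero.2 (pow_pos hp.pos s).ne'
  have hpos : 0 < Fintype.card ι := by
    rw [hcard]
    have : 1 * 2 ≤ p ^ s * p ^ r := Nat.mul_le_mul hms hq2
    omega
  let a : ι → ℕ := fun j => (x j).val
  have hax : ∀ j, ((a j : ℕ) : ZMod (p ^ r)) = x j := fun j => ZMod.natCast_zmod_val (x j)
  have hE : ∀ Z : Finset ι, ((E a (p ^ s) Z : ℕ) : ZMod (p ^ r))
      = ∑ I ∈ Z.powersetCard (p ^ s), ∏ j ∈ I, x j := by
    intro Z
    unfold E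
    push_cast
    simp only [hax]
  have hfree' : ∀ Z : Finset ι, p ^ s ≤ Z.card → ¬ p ^ r ∣ E a (p ^ s) Z := by
    intro Z hZ h
    refine hfree Z hZ ?_
    rw [← hE, ZMod.natCast_eq_zero_iff]
    exact h
  obtain ⟨j0⟩ : Nonempty ι := Fintype.card_pos_iff.1 hpos
  have hconst : ∀ i i', x i = x i' ∧ ¬ p ∣ a i := by
    rcases Nat.eq_zero_or_pos s with hs | hs
    · subst hs
      have hc' : Fintype.card ι = p ^ r - 1 := by rw [hcard, pow_zero, one_mul]
      have hfree1 : ∀ X : Finset ι, X.Nonempty → ∑ j ∈ X, x j ≠ 0 := by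
        intro X hX h
        refine hfree X (by simpa using Finset.card_pos.2 hX) ?_
        rw [pow_zero, Finset.powersetCard_one, Finset.sum_map]
        simpa using h
      have hall := fun i i' => const_one (p ^ r) hq2 x hc' hfree1 i i'
      refine fun i i' => ⟨hall i i', fun hdvd => ?_⟩
      obtain ⟨r', rfl⟩ : ∃ r', r = r' + 1 := ⟨r - 1, by omega⟩
      have hle : p ^ r' ≤ (Finset.univ : Finset ι).card := by
        rw [Finset.card_univ, hc', pow_succ]
        have h1 : p ^ r' * 2 ≤ p ^ r' * p := Nat.mul_le_mul_left _ hp.two_le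
        have h2 : 1 ≤ p ^ r' := Nat.one_le_iff_ne_zero.2 (pow_pos hp.pos r').ne'
        omega
      obtain ⟨X, _, hXc⟩ := Finset.exists_subset_card_eq hle
      have hX : X.Nonempty := by
        rw [← Finset.card_pos, hXc]; exact pow_pos hp.pos r'
      refine hfree1 X hX ?_
      rw [Finset.sum_congr rfl (fun j _ => hall j i), Finset.sum_const, hXc, nsmul_eq_mul, ← hax i]
      obtain ⟨c, hc⟩ := hdvd
      rw [hc, ← Nat.cast_mul, ZMod.natCast_eq_zero_iff, ← mul_assoc, ← pow_succ]
      exact dvd_mul_right _ _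
    · have hmod := fun i i' => mod_p p r s hr hs a hcard hfree' i i'
      have hp0 : ∀ i, ¬ p ∣ a i := fun i h => (hmod i i).2 ((ZMod.natCast_eq_zero_iff _ _).2 h)
      have hp1 : ∀ i i', a i ≡ a i' [MOD p] := fun i i' =>
        (ZMod.natCast_eq_natCast_iff _ _ _).1 (hmod i i').1
      intro i i'
      refine ⟨?_, hp0 i⟩
      have := lift p r s a hcard hfree' hp1 hp0 r hr le_rfl i i'
      rw [← hax i, ← hax i']
      exact (ZMod.natCast_eq_natCast_iff _ _ _).2 this
  refine ⟨x j0, ?_, fun j => (hconst j j0).1⟩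
  rw [← hax j0, ZMod.isUnit_iff_coprime]
  exact (Nat.Coprime.pow_left r ((Nat.Prime.coprime_iff_not_dvd hp).2 (hconst j0 j0).2)).symm

end Pool.Agent.Q285.MZ
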