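import Mathlib

/-!
# Project MZ, job QS: the abstract part

A `2`-cocycle of `G` which splits over a subgroup `H` of index two is, up to a coboundary, inflated from
`G / H`, if the first cohomology of `H` is trivial. Additive notation.
-/

set_option autoImplicit false

namespace Pool.Agent.Q285.MZ

section abs

variable {G A : Type} [Group G] [AddCommGroup A] (ρ : G → A →+ A)

/-- the cocycle `c` changed by the coboundary of `b` -/
def tw (c : G → G → A) (b : G → A) (g j : G) : A := b g + ρ g (b j) - b (g * j) - c g j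

theorem tw_coc (hm : ∀ g h a, ρ (g * h) a = ρ g (ρ h a)) {c : G → G → A}
    (hc : ∀ g h j, c g h + c (g * h) j = ρ g (c h j) + c g (h * j)) (b : G → A) (g h j : G) :
    tw ρ c b g h + tw ρ c b (g * h) j = ρ g (tw ρ c b h j) + tw ρ c b g (h * j) := by
  unfold tw
  simp only [map_sub, map_add, hm, mul_assoc]
  linear_combination (norm := abel) -(hc g h j)

open scoped Classical in
theorem abs_main (h1 : ∀ a, ρ 1 a = a) (hm : ∀ g h a, ρ (g * h) a = ρ g (ρ h a))
    (H : Subgroup G) (hidx : H.index = 2)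
    (c : G → G → A) (c11 : c 1 1 = 0)
    (hc : ∀ g h j, c g h + c (g * h) j = ρ g (c h j) + c g (h * j))
    (b0 : G → A) (hb0 : ∀ g ∈ H, ∀ h ∈ H, b0 g + ρ g (b0 h) = b0 (g * h) + c g h)
    (h90 : ∀ F : G → A, (∀ g ∈ H, ∀ h ∈ H, F (g * h) = F g + ρ g (F h)) →
      ∃ u : A, ∀ h ∈ H, F h = ρ h u - u) :
    ∃ (X : A) (b : G → A), (∀ g : G, ρ g X = X) ∧
      ∀ g j, b g + ρ g (b j) = b (g * j) + c g j + (if g ∈ H ∨ j ∈ H then 0 else X) := by
  have hmem : ∀ {a b : G}, a * b ∈ H ↔ (a ∈ H ↔ b ∈ H) := Subgroup.mul_mem_iff_of_index_two hidx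
  have hnor : H.Normal := Subgroup.normal_of_index_eq_two hidx
  obtain ⟨t, ht⟩ : ∃ t, t ∉ H := by
    by_contra hcon
    push Not at hcon
    have : H = ⊤ := (Subgroup.eq_top_iff' H).2 hcon
    rw [this, Subgroup.index_top] at hidx
    omega
  have htt : t * t ∈ H := hmem.2 Iff.rfl
  have hti : t⁻¹ ∉ H := fun h => ht (by simpa using H.inv_mem h)
  have hdiv : ∀ g, g ∉ H → g * t⁻¹ ∈ H := fun g hg => hmem.2 (by simp [hg, hti])
  have hHt : ∀ h ∈ H, h * t ∉ H := fun h hh hcon => ht ((hmem.1 hcon).1 hh)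
  have htH : ∀ h ∈ H, t * h ∉ H := fun h hh hcon => ht ((hmem.1 hcon).2 hh)
  have hcj : ∀ h ∈ H, t * h * t⁻¹ ∈ H := fun h hh => hnor.conj_mem h hh t
  have hcj' : ∀ h ∈ H, t⁻¹ * h * t ∈ H := fun h hh => by
    have := hnor.conj_mem h hh t⁻¹
    simpa using this
  -- the first normalization
  have c1g : ∀ g, c 1 g = 0 := fun g => by
    have h := hc 1 1 g
    rw [one_mul, one_mul, h1, c11, zero_add] at h
    have h' : c 1 g + 0 = c 1 g + c 1 g := by rw [add_zero]; exact h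
    exact (add_left_cancel h').symm
  have b01 : b0 1 = 0 := by
    have h := hb0 1 H.one_mem 1 H.one_mem
    rw [h1, one_mul, c11, add_zero] at h
    have h' : b0 1 + b0 1 = b0 1 + 0 := by rw [add_zero]; exact h
    exact add_left_cancel h'
  set b1 : G → A := fun g => if g ∈ H then b0 g else b0 (g * t⁻¹) - c (g * t⁻¹) t with hb1
  have b1H : ∀ h ∈ H, b1 h = b0 h := fun h hh => if_pos hh
  have b1t : ∀ h ∈ H, b1 (h * t) = b0 h - c h t := fun h hh => by
    rw [hb1]
    simp only [if_neg (hHt h hh), mul_inv_cancel_right]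
  have b1t' : b1 t = 0 := by
    have := b1t 1 H.one_mem
    rwa [one_mul, b01, c1g, sub_zero] at this
  set c1 := tw ρ c b1 with hc1
  have hcoc1 := tw_coc ρ hm hc b1
  rw [← hc1] at hcoc1
  have a1 : ∀ h ∈ H, ∀ h' ∈ H, c1 h h' = 0 := fun h hh h' hh' => by
    rw [hc1]
    unfold tw
    rw [b1H h hh, b1H h' hh', b1H _ (H.mul_mem hh hh')]
    linear_combination (norm := abel) hb0 h hh h' hh'
  have a2 : ∀ h ∈ H, c1 h t = 0 := fun h hh => by
    rw [hc1]
    unfold tw
    rw [b1H h hh, b1t', b1t h hh, map_zero]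
    abel
  have a3 : ∀ h ∈ H, ∀ g, c1 h g = 0 := fun h hh g => by
    by_cases hg : g ∈ H
    · exact a1 h hh g hg
    · have h2 := hcoc1 h (g * t⁻¹) t
      rw [inv_mul_cancel_right, a1 h hh _ (hdiv g hg), a2 _ (hdiv g hg), map_zero,
        a2 _ (H.mul_mem hh (hdiv g hg)), zero_add, zero_add] at h2
      exact h2.symm
  have a4 : ∀ h ∈ H, ∀ g j, c1 (h * g) j = ρ h (c1 g j) := fun h hh g j => by
    have h2 := hcoc1 h g j
    rwa [a3 h hh, a3 h hh, zero_add, add_zero] at h2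
  -- Hilbert 90
  obtain ⟨u, hu⟩ := h90 (fun h => c1 t (t⁻¹ * h * t)) (by
    intro h hh h' hh'
    have h2 := hcoc1 t (t⁻¹ * h * t) (t⁻¹ * h' * t)
    have e1 : t * (t⁻¹ * h * t) = h * t := by group
    have e2 : t⁻¹ * h * t * (t⁻¹ * h' * t) = t⁻¹ * (h * h') * t := by group
    rw [e1, e2, a1 _ (hcj' h hh) _ (hcj' h' hh'), map_zero, zero_add, a4 h hh] at h2
    exact h2.symm)
  set aa : G → A := fun g => if g ∈ H then 0 else ρ (g * t⁻¹) u with haa
  have aH : ∀ h ∈ H, aa h = 0 := fun h hh => if_pos hh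
  have aN : ∀ g, g ∉ H → aa g = ρ (g * t⁻¹) u := fun g hg => if_neg hg
  set b2 : G → A := fun g => b1 g + aa g with hb2
  set c2 := tw ρ c b2 with hc2
  have hcoc2 := tw_coc ρ hm hc b2
  rw [← hc2] at hcoc2
  have hrel : ∀ g j, c2 g j = c1 g j + aa g + ρ g (aa j) - aa (g * j) := fun g j => by
    rw [hc2, hc1]
    unfold tw
    simp only [hb2, map_add]
    abel
  have e2 : ∀ h ∈ H, ∀ g, c2 h g = 0 := fun h hh g => by
    rw [hrel, a3 h hh, aH h hh]
    by_cases hg : g ∈ H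
    · rw [aH g hg, aH _ (H.mul_mem hh hg), map_zero]
      abel
    · have hhg : h * g ∉ H := fun hcon => hg ((hmem.1 hcon).1 hh)
      rw [aN g hg, aN _ hhg, mul_assoc, hm h]
      abel
  have e3 : ∀ h ∈ H, c2 t h = 0 := fun h hh => by
    have h2 := hu (t * h * t⁻¹) (hcj h hh)
    have h3 : t⁻¹ * (t * h * t⁻¹) * t = h := by group
    simp only [h3] at h2
    rw [hrel, h2, aH h hh, aN t ht, aN _ (htH h hh), map_zero, mul_inv_cancel, h1]
    abel
  have e4 : ∀ h ∈ H, ∀ g j, c2 (h * g) j = ρ h (c2 g j) := fun h hh g j => by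
    have h2 := hcoc2 h g j
    rwa [e2 h hh, e2 h hh, zero_add, add_zero] at h2
  have e5 : ∀ g, ∀ h ∈ H, c2 g h = 0 := fun g h hh => by
    by_cases hg : g ∈ H
    · exact e2 g hg h
    · have h2 := e4 _ (hdiv g hg) t h
      rw [inv_mul_cancel_right, e3 h hh, map_zero] at h2
      exact h2
  set X := c2 t t with hX
  have e6 : ρ t X = X := by
    have h2 := hcoc2 t t t
    rw [e2 _ htt, e5 _ _ htt, add_zero, add_zero] at h2
    exact h2.symm
  have e7 : ∀ h ∈ H, c2 t (t * h) = X := fun h hh => by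
    have h2 := hcoc2 t t h
    rw [e2 _ htt, e5 _ _ hh, map_zero, add_zero, zero_add] at h2
    exact h2.symm
  have e8 : ∀ h ∈ H, ρ (t * h * t⁻¹) X = X := fun h hh => by
    have h2 := hcoc2 t h t
    rw [e5 t h hh, e2 h hh, map_zero, zero_add, zero_add] at h2
    have h3 := e4 (t * h * t⁻¹) (hcj h hh) t t
    rw [inv_mul_cancel_right] at h3
    have h4 := e7 (t⁻¹ * h * t) (hcj' h hh)
    have h5 : t * (t⁻¹ * h * t) = h * t := by group
    rw [h5] at h4
    rw [hX, ← h3, h2, h4]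
  have e9 : ∀ h ∈ H, ρ h X = X := fun h hh => by
    have h2 := e8 (t⁻¹ * h * t) (hcj' h hh)
    have h3 : t * (t⁻¹ * h * t) * t⁻¹ = h := by group
    rwa [h3] at h2
  have e10 : ∀ g, ρ g X = X := fun g => by
    by_cases hg : g ∈ H
    · exact e9 g hg
    · have h2 : ρ g X = ρ (g * t⁻¹) (ρ t X) := by rw [← hm, inv_mul_cancel_right]
      rw [h2, e6, e9 _ (hdiv g hg)]
  refine ⟨X, b2, e10, fun g j => ?_⟩
  have h2 : c2 g j = if g ∈ H ∨ j ∈ H then 0 else X := by
    by_cases hg : g ∈ H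
    · rw [if_pos (Or.inl hg), e2 g hg]
    · by_cases hj : j ∈ H
      · rw [if_pos (Or.inr hj), e5 g j hj]
      · rw [if_neg (not_or.2 ⟨hg, hj⟩)]
        have h3 := e4 (g * t⁻¹) (hdiv g hg) t j
        rw [inv_mul_cancel_right] at h3
        have h4 : j = t * (t⁻¹ * j) := by group
        have h5 : t⁻¹ * j ∈ H := hmem.2 (by simp [hj, hti])
        rw [h3, h4, e7 _ h5, e9 _ (hdiv g hg)]
  rw [← h2, hc2]
  unfold tw
  abel

end abs

end Pool.Agent.Q285.MZ
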