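import Pool.Agent.Q5.MZ.Stm
import Pool.Agent.Q285.MZ.QSA

/-!
# Project MZ, job QS: cocycles that split over a quadratic extension
-/

set_option autoImplicit false
set_option linter.unusedSectionVars false

namespace Pool.Agent.Q285.MZ

open NumberField IsDedekindDomain Module
open Pool.Agent.Q5.MZ

section

variable {k E L : Type} [Field k] [NumberField k] [Field E] [NumberField E] [Field L]
  [NumberField L] [Algebra k E] [Algebra k L] [Algebra E L] [IsScalarTower k E L]

/-- the automorphisms which are trivial on `E` -/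
def TSub (k E L : Type) [Field k] [NumberField k] [Field E] [NumberField E] [Field L]
    [NumberField L] [Algebra k E] [Algebra k L] [Algebra E L] [IsScalarTower k E L] :
    Subgroup (L ≃ₐ[k] L) where
  carrier := {g | TrivOn E g}
  mul_mem' := by
    intro a b ha hb e
    have h1 : a (algebraMap E L e) = algebraMap E L e := ha e
    have h2 : b (algebraMap E L e) = algebraMap E L e := hb e
    rw [AlgEquiv.mul_apply, h2, h1]
  one_mem' := fun e => rfl
  inv_mem' := by
    intro a ha e
    have h1 : a (algebraMap E L e) = algebraMap E L e := ha e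
    have h2 : a⁻¹ (a (algebraMap E L e)) = algebraMap E L e := by
      rw [← AlgEquiv.mul_apply, inv_mul_cancel, AlgEquiv.one_apply]
    rwa [h1] at h2

theorem mem_TSub (g : L ≃ₐ[k] L) : g ∈ TSub k E L ↔ TrivOn E g := Iff.rfl

theorem TSub_index [IsGalois k L] (h2 : finrank k E = 2) : (TSub k E L).index = 2 := by
  have : Algebra.IsQuadraticExtension k E := ⟨h2⟩
  have : Normal k E := inferInstance
  have hg : IsGalois k E := ⟨⟩
  have e : TSub k E L = (AlgEquiv.restrictNormalHom (F := k) (K₁ := L) E).ker := by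
    ext g
    rw [mem_TSub, MonoidHom.mem_ker]
    constructor
    · intro h
      refine AlgEquiv.ext fun x => (algebraMap E L).injective ?_
      show algebraMap E L (g.restrictNormal E x) = _
      rw [AlgEquiv.restrictNormal_commutes, h x]
      rfl
    · intro h x
      rw [← AlgEquiv.restrictNormal_commutes g E x]
      have h1 : g.restrictNormal E = 1 := h
      rw [h1]
      rfl
  rw [e, Subgroup.index_ker, MonoidHom.range_eq_top.2 (AlgEquiv.restrictNormalHom_surjective L),
    Subgroup.card_top, IsGalois.card_aut_eq_finrank, h2]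

/-- an automorphism trivial on `E`, as an automorphism over `E` -/
def lft (g : L ≃ₐ[k] L) (h : TrivOn E g) : L ≃ₐ[E] L :=
  AlgEquiv.ofRingEquiv (f := (g : L ≃+* L)) h

theorem lft_res (g : L ≃ₐ[k] L) (h : TrivOn E g) : (lft g h).restrictScalars k = g :=
  AlgEquiv.ext fun _ => rfl

theorem lft_mul (g j : L ≃ₐ[k] L) (hg : TrivOn E g) (hj : TrivOn E j) (hgj : TrivOn E (g * j)) :
    lft (g * j) hgj = lft g hg * lft j hj :=
  AlgEquiv.ext fun _ => rfl

/-- the action on the units, additively -/
def act' (g : L ≃ₐ[k] L) : Additive Lˣ →+ Additive Lˣ :=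
  MonoidHom.toAdditive (Units.map (g : L →* L))

theorem act'_val (g : L ≃ₐ[k] L) (a : Additive Lˣ) :
    (((act' g a).toMul : Lˣ) : L) = g ((a.toMul : Lˣ) : L) := rfl

theorem aext {a b : Additive Lˣ} (h : ((a.toMul : Lˣ) : L) = ((b.toMul : Lˣ) : L)) : a = b :=
  Additive.toMul.injective (Units.ext h)

/-- the sign as an element of the units, additively -/
def sg (z : ℤˣ) : Additive Lˣ := Additive.ofMul (Units.map ((Int.castRingHom L : ℤ →+* L) : ℤ →* L) z)

theorem sg_val (z : ℤˣ) : (((sg (L := L) z).toMul : Lˣ) : L) = ((z : ℤ) : L) := rfl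

theorem add_val (a b : Additive Lˣ) :
    (((a + b).toMul : Lˣ) : L) = ((a.toMul : Lˣ) : L) * ((b.toMul : Lˣ) : L) := rfl

theorem act'_sg (g : L ≃ₐ[k] L) (z : ℤˣ) : act' g (sg z) = sg z := by
  apply aext
  rw [act'_val, sg_val, map_intCast]

end

open scoped Classical in
/-- **QS** -/
theorem qs : Pool.Agent.Q5.MZ.S_QS := by
  intro k E L _ _ _ _ _ _ _ _ _ _ _ c h2 hc ⟨b0, hb0⟩
  have hmt : ∀ {g j : L ≃ₐ[k] L}, TrivOn E g → TrivOn E j → TrivOn E (g * j) :=
    fun hg hj => (TSub k E L).mul_mem hg hj
  set B0 : (L ≃ₐ[k] L) → Additive Lˣ := fun g =>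
    if h : TrivOn E g then Additive.ofMul (b0 (lft g h)) else 0 with hB0
  have B0H : ∀ g (h : TrivOn E g), B0 g = Additive.ofMul (b0 (lft g h)) := fun g h => dif_pos h
  obtain ⟨X, b, hX, hb⟩ := abs_main (act' (k := k) (L := L)) (fun a => rfl) (fun g h a => rfl)
    (TSub k E L) (TSub_index h2) (fun g h => sg (c g h)) (by
      show sg (c 1 1) = 0
      rw [hc.one]
      apply aext
      rw [sg_val]
      simp) (by
      intro g h j
      rw [act'_sg]
      apply aext
      simp only [add_val, sg_val]
      have := congrArg (fun z : ℤˣ => ((z : ℤ) : L)) (hc.coc g h j)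
      simpa using this) B0 (by
      intro g hg h hh
      have hgh := hmt hg hh
      rw [B0H g hg, B0H h hh, B0H _ hgh]
      apply aext
      rw [add_val, add_val, act'_val, sg_val]
      have h3 := hb0 (lft g hg) (lft h hh)
      have e1 : (lft g hg).restrictScalars k = g := AlgEquiv.ext fun _ => rfl
      have e2 : (lft h hh).restrictScalars k = h := AlgEquiv.ext fun _ => rfl
      rw [e1, e2, ← lft_mul g h hg hh hgh] at h3
      exact h3) (by
      intro F hF
      obtain ⟨β, hβ⟩ := groupCohomology.isMulCoboundary₁_of_isMulCocycle₁_of_aut_to_units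
        (fun g : L ≃ₐ[E] L => ((F (g.restrictScalars k)).toMul : Lˣ)) (by
          intro g h
          have h3 := hF (g.restrictScalars k) (fun e => g.commutes e) (h.restrictScalars k)
            (fun e => h.commutes e)
          apply Units.ext
          have h4 := congrArg (fun a : Additive Lˣ => ((a.toMul : Lˣ) : L)) h3
          simp only [add_val, act'_val] at h4
          rw [mul_comm]
          exact h4)
      refine ⟨Additive.ofMul β, fun h hh => ?_⟩
      have h3 := hβ (lft h hh)
      have h4 : (lft h hh).restrictScalars k = h := AlgEquiv.ext fun _ => rfl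
      simp only [h4] at h3
      rw [eq_sub_iff_add_eq]
      apply aext
      rw [add_val, act'_val]
      have h5 : (lft h hh) • β = ((F h).toMul : Lˣ) * β := by rw [← h3, div_mul_cancel]
      exact (congrArg (fun a : Lˣ => (a : L)) h5).symm)
  obtain ⟨x₀, hx₀⟩ := (IsGalois.mem_range_algebraMap_iff_fixed (F := k) ((X.toMul : Lˣ) : L)).2
    fun f => congrArg (fun a : Additive Lˣ => ((a.toMul : Lˣ) : L)) (hX f)
  have hx0 : x₀ ≠ 0 := by
    rintro rfl
    rw [map_zero] at hx₀
    exact (X.toMul : Lˣ).ne_zero hx₀.symm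
  refine ⟨Units.mk0 x₀ hx0, fun g => (b g).toMul, fun g j => ?_⟩
  have h3 := congrArg (fun a : Additive Lˣ => ((a.toMul : Lˣ) : L)) (hb g j)
  simp only [add_val, act'_val, sg_val] at h3
  rw [h3]
  by_cases h4 : TrivOn E g ∨ TrivOn E j
  · rw [if_pos h4, if_pos (show g ∈ TSub k E L ∨ j ∈ TSub k E L from h4)]
    simp
  · rw [if_neg h4, if_neg (show ¬ (g ∈ TSub k E L ∨ j ∈ TSub k E L) from h4), Units.val_mk0, hx₀]

end Pool.Agent.Q285.MZ
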