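import Pool.Agent.Q285.MZ.QS

/-!
# Project MZ, job VE: even valuations at the unramified primes that do not split
-/

set_option autoImplicit false
set_option linter.unusedSectionVars false

namespace Pool.Agent.Q285.MZ

open NumberField IsDedekindDomain Module
open Pool.Agent.Q92.AR (Dv prin Pr Ray RayD art nmD nu up puD Cong Pos frob IsFrobenius Unramified Ram)
open Pool.Agent.TeamU (act Over)
open Pool.Agent.Q5.MZ

section

variable {k L : Type} [Field k] [NumberField k] [Field L] [NumberField L] [Algebra k L]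

theorem over_of_under {P : HeightOneSpectrum (𝓞 L)} {v : HeightOneSpectrum (𝓞 k)}
    (h : P.under (𝓞 k) = v) : Over P v := by
  rw [← h]
  rfl

theorem under_of_over {P : HeightOneSpectrum (𝓞 L)} {v : HeightOneSpectrum (𝓞 k)}
    (h : Over P v) : P.under (𝓞 k) = v := HeightOneSpectrum.ext h

/-- a prime above `v` -/
theorem ex_above (v : HeightOneSpectrum (𝓞 k)) : ∃ P : HeightOneSpectrum (𝓞 L),
    P.under (𝓞 k) = v := by
  have hvm : v.asIdeal.IsMaximal := v.isMaximal
  obtain ⟨P, hP, hPv⟩ := Ideal.exists_ideal_over_maximal_of_isIntegral (S := 𝓞 L) v.asIdeal (by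
    rw [(RingHom.injective_iff_ker_eq_bot _).1 (FaithfulSMul.algebraMap_injective (𝓞 k) (𝓞 L))]
    exact bot_le)
  have hP0 : P ≠ ⊥ := by
    rintro rfl
    apply v.ne_bot
    rw [← hPv, ← RingHom.ker_eq_comap_bot]
    exact (RingHom.injective_iff_ker_eq_bot _).1 (FaithfulSMul.algebraMap_injective (𝓞 k) (𝓞 L))
  exact ⟨⟨P, hP.isPrime, hP0⟩, HeightOneSpectrum.ext hPv⟩

/-- valuations at unramified primes -/
theorem val_unr {P : HeightOneSpectrum (𝓞 L)} {v : HeightOneSpectrum (𝓞 k)}
    (h : P.under (𝓞 k) = v) (hv : Unramified L v) (x : k) :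
    P.valuation L (algebraMap k L x) = v.valuation k x := by
  have ho := over_of_under h
  rw [Pool.Agent.TeamU.val_over ho]
  have hlo : P.asIdeal.LiesOver v.asIdeal := Pool.Agent.TeamU.liesOver_of_over ho
  have he : Ideal.ramificationIdx' v.asIdeal P.asIdeal = 1 := by
    refine Ideal.ramificationIdx'_spec ?_ ?_
    · rw [pow_one, Ideal.map_le_iff_le_comap]
      exact hlo.over.le
    · exact hv P h
  rw [he, pow_one]

theorem val_sign (P : HeightOneSpectrum (𝓞 L)) (z : ℤˣ) : P.valuation L ((z : ℤ) : L) = 1 := by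
  rcases Int.units_eq_one_or z with rfl | rfl
  · simp
  · simp [Valuation.map_neg]

theorem val_act_eq {P : HeightOneSpectrum (𝓞 L)} {g : L ≃ₐ[k] L} (hg : act g P = P) (x : L) :
    P.valuation L (g x) = P.valuation L x := by
  have h := Pool.Agent.TeamU.val_act g P x
  rwa [hg] at h

theorem act_pow {P : HeightOneSpectrum (𝓞 L)} {g : L ≃ₐ[k] L} (hg : act g P = P) (j : ℕ) :
    act (g ^ j) P = P := by
  induction j with
  | zero => rw [pow_zero, Pool.Agent.TeamU.act_one]
  | succ j ih => rw [pow_succ, Pool.Agent.TeamU.act_mul, hg, ih]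

end

section

variable {k E L : Type} [Field k] [NumberField k] [Field E] [NumberField E] [Field L]
  [NumberField L] [Algebra k E] [Algebra k L] [Algebra E L] [IsScalarTower k E L]

theorem act_res (h : L ≃ₐ[E] L) (P : HeightOneSpectrum (𝓞 L)) :
    act (h.restrictScalars k) P = act h P := rfl

theorem under_under (P : HeightOneSpectrum (𝓞 L)) :
    (P.under (𝓞 E)).under (𝓞 k) = P.under (𝓞 k) := by
  apply HeightOneSpectrum.ext
  show (P.asIdeal.comap (algebraMap (𝓞 E) (𝓞 L))).comap (algebraMap (𝓞 k) (𝓞 E)) =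
    P.asIdeal.comap (algebraMap (𝓞 k) (𝓞 L))
  rw [Ideal.comap_comap, ← IsScalarTower.algebraMap_eq (𝓞 k) (𝓞 E) (𝓞 L)]

/-- an element of the decomposition group which is not trivial on `E`, if `v` does not split in `E` -/
theorem ex_dec [IsGalois k L] {v : HeightOneSpectrum (𝓞 k)} (hv : NonSplit E v)
    {P : HeightOneSpectrum (𝓞 L)} (hP : P.under (𝓞 k) = v) {t : L ≃ₐ[k] L} (ht : ¬ TrivOn E t) :
    ∃ φ : L ≃ₐ[k] L, act φ P = P ∧ ¬ TrivOn E φ := by
  have : IsGalois E L := IsGalois.tower_top_of_isGalois k E L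
  have h1 : (act t P).under (𝓞 k) = v :=
    under_of_over (Pool.Agent.TeamU.over_act t (over_of_under hP))
  have h2 : (act t P).under (𝓞 E) = P.under (𝓞 E) :=
    hv _ _ (by rw [under_under, h1]) (by rw [under_under, hP])
  obtain ⟨h, hh⟩ := Pool.Agent.TeamU.exists_act (k := E) (over_of_under h2)
    (over_of_under (rfl : P.under (𝓞 E) = P.under (𝓞 E)))
  refine ⟨h.restrictScalars k * t, ?_, fun hcon => ht fun e => ?_⟩
  · rw [Pool.Agent.TeamU.act_mul, act_res, hh]
  · have h3 : h (t (algebraMap E L e)) = algebraMap E L e := hcon e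
    have h4 : h (algebraMap E L e) = algebraMap E L e := h.commutes e
    exact h.injective (h3.trans h4.symm)

end

open scoped Classical in
/-- **VE** -/
theorem ve : Pool.Agent.Q5.MZ.S_VE := by
  intro k E L _ _ _ _ _ _ _ _ _ _ _ c x b v h2 hrel hunr hns
  have hidx := TSub_index (k := k) (E := E) (L := L) h2
  have hmem : ∀ {a b : L ≃ₐ[k] L}, a * b ∈ TSub k E L ↔ (a ∈ TSub k E L ↔ b ∈ TSub k E L) :=
    Subgroup.mul_mem_iff_of_index_two hidx
  obtain ⟨t, ht⟩ : ∃ t : L ≃ₐ[k] L, ¬ TrivOn E t := by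
    by_contra hcon
    push Not at hcon
    have : TSub k E L = ⊤ := (Subgroup.eq_top_iff' _).2 hcon
    rw [this, Subgroup.index_top] at hidx
    omega
  obtain ⟨P, hP⟩ := ex_above (L := L) v
  obtain ⟨φ, hφ, hφE⟩ := ex_dec hns hP ht
  set β : (L ≃ₐ[k] L) → ℤ := fun g => prin (b g) P with hβ
  have hval : ∀ g, P.valuation L (b g : L) = WithZero.exp (-(β g)) := fun g =>
    Pool.Agent.Q128.AR.val_prin (b g) P
  have hx : P.valuation L (algebraMap k L (x : k)) = WithZero.exp (-(prin x v)) := by
    rw [val_unr hP hunr, Pool.Agent.Q128.AR.val_prin]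
  have key : ∀ g h, act g P = P →
      β g + β h = β (g * h) + (if TrivOn E g ∨ TrivOn E h then 0 else prin x v) := by
    intro g h hg
    have h3 := congrArg (P.valuation L) (hrel g h)
    rw [map_mul, map_mul, map_mul, val_act_eq hg, val_sign, mul_one, hval, hval, hval,
      ← WithZero.exp_add] at h3
    split_ifs at h3 ⊢ with h4
    · rw [map_one, mul_one] at h3
      have h5 := WithZero.exp_injective h3
      omega
    · rw [hx, ← WithZero.exp_add] at h3
      have h5 := WithZero.exp_injective h3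
      omega
  have hpar : ∀ j : ℕ, TrivOn E (φ ^ j) ↔ Even j := by
    intro j
    induction j with
    | zero =>
      rw [pow_zero]
      exact ⟨fun _ => Even.zero, fun _ => (TSub k E L).one_mem⟩
    | succ j ih =>
      rw [pow_succ, Nat.even_add_one]
      have h3 : TrivOn E (φ ^ j * φ) ↔ (TrivOn E (φ ^ j) ↔ TrivOn E φ) := hmem
      rw [h3, ih]
      simp only [hφE, iff_false]
  have hb1 : β 1 = 0 := by
    have h3 := key 1 1 (Pool.Agent.TeamU.act_one P)
    have h4 : TrivOn E (1 : L ≃ₐ[k] L) := (TSub k E L).one_mem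
    rw [if_pos (Or.inl h4), mul_one] at h3
    omega
  have hclaim : ∀ j : ℕ, β (φ ^ j) = j * β φ - ((j / 2 : ℕ) : ℤ) * prin x v := by
    intro j
    induction j with
    | zero => rw [pow_zero, hb1]; simp
    | succ j ih =>
      have h3 := key (φ ^ j) φ (act_pow hφ j)
      rw [← pow_succ, ih] at h3
      rcases Nat.even_or_odd j with hj | hj
      · rw [if_pos (Or.inl ((hpar j).2 hj))] at h3
        have h4 : (j + 1) / 2 = j / 2 := by
          obtain ⟨r, rfl⟩ := hj
          omega
        rw [h4, Nat.cast_add, Nat.cast_one]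
        linear_combination -h3
      · rw [if_neg (not_or.2 ⟨fun h => (Nat.not_even_iff_odd.2 hj) ((hpar j).1 h), hφE⟩)] at h3
        have h4 : (j + 1) / 2 = j / 2 + 1 := by
          obtain ⟨r, rfl⟩ := hj
          omega
        rw [h4, Nat.cast_add, Nat.cast_add, Nat.cast_one]
        linear_combination -h3
  have hn : 0 < orderOf φ := orderOf_pos φ
  have h5 : Even (orderOf φ) := by
    rw [← hpar, pow_orderOf_eq_one]
    exact (TSub k E L).one_mem
  obtain ⟨r, hr⟩ := h5
  have h6 := hclaim (orderOf φ)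
  rw [pow_orderOf_eq_one, hb1] at h6
  have h7 : orderOf φ / 2 = r := by omega
  rw [h7, hr] at h6
  have hr0 : (r : ℤ) ≠ 0 := by
    have : 0 < r := by omega
    exact_mod_cast this.ne'
  refine ⟨β φ, ?_⟩
  have h8 : (r : ℤ) * prin x v = (r : ℤ) * (β φ + β φ) := by
    push_cast at h6
    linarith
  exact mul_left_cancel₀ hr0 h8

end Pool.Agent.Q285.MZ
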